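import Pool.Agent.Lib.MP_3ef1ab_nt.E.Defs

/-! MP_3ef1ab_nt, part E, module Del: deleting one element shifts the later sums. -/

set_option autoImplicit false

namespace Pool.Agent.Lib.MP_3ef1ab_nt

open Finset Filter Topology
open scoped Classical

theorem sm_succ (Q : ℕ → Prop) (n : ℕ) : sm Q (n + 1) = sm Q n + Nat.nth Q n := by
  unfold sm
  rw [sum_range_succ]

theorem count_agree (Q Q' : ℕ → Prop) (L : ℕ) (h : ∀ m < L, (Q m ↔ Q' m)) :
    Nat.count Q L = Nat.count Q' L := by
  rw [Nat.count_eq_card_filter_range, Nat.count_eq_card_filter_range]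
  congr 1
  apply filter_congr
  intro m hm
  exact h m (mem_range.1 hm)

/-- two sets which agree up to the n-th element of the first one -/
theorem nth_agree (Q Q' : ℕ → Prop) (hQ : (Set.ofPred Q).Infinite) (n : ℕ)
    (h : ∀ m ≤ Nat.nth Q n, (Q m ↔ Q' m)) (i : ℕ) (hi : i ≤ n) :
    Nat.nth Q' i = Nat.nth Q i := by
  set y := Nat.nth Q i with hy
  have h1 : y ≤ Nat.nth Q n := (Nat.nth_monotone hQ) hi
  have h2 : Q y := Nat.nth_mem_of_infinite hQ i
  have h3 : Q' y := (h y h1).1 h2
  have h4 : Nat.count Q y = i := Nat.count_nth_of_infinite hQ i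
  have h5 : Nat.count Q' y = i := by
    rw [← h4]
    exact (count_agree Q Q' y (fun m hm => h m (by omega))).symm
  have h6 := Nat.nth_count h3
  rw [h5] at h6
  exact h6

theorem sm_agree (Q Q' : ℕ → Prop) (hQ : (Set.ofPred Q).Infinite) (n : ℕ)
    (h : ∀ m ≤ Nat.nth Q n, (Q m ↔ Q' m)) (i : ℕ) (hi : i ≤ n + 1) :
    sm Q' i = sm Q i := by
  unfold sm
  apply sum_congr rfl
  intro j hj
  rw [mem_range] at hj
  exact nth_agree Q Q' hQ n h j (by omega)

/-- deletion of one element -/
theorem del (Q0 : ℕ → Prop) (hQ : (Set.ofPred Q0).Infinite) (q : ℕ) (hq : Q0 q) (N : ℕ)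
    (hN : q < Nat.nth Q0 N) :
    Nat.nth (fun p => Q0 p ∧ p ≠ q) (N - 1) = Nat.nth Q0 N ∧
      sm Q0 N = sm (fun p => Q0 p ∧ p ≠ q) (N - 1) + q ∧ 1 ≤ N := by
  obtain ⟨Q, hQe⟩ : ∃ Q : ℕ → Prop, Q = fun p => Q0 p ∧ p ≠ q := ⟨_, rfl⟩
  have hQdef : ∀ p, Q p ↔ (Q0 p ∧ p ≠ q) := fun p => by rw [hQe]
  rw [← hQe]
  set k := Nat.count Q0 q with hk
  have hqk : Nat.nth Q0 k = q := Nat.nth_count hq
  -- below
  have hlow : ∀ i < k, Nat.nth Q i = Nat.nth Q0 i := by
    intro i hi
    set y := Nat.nth Q0 i with hy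
    have h1 : y < q := by
      rw [← hqk]
      exact (Nat.nth_strictMono hQ) hi
    have h2 : Q0 y := Nat.nth_mem_of_infinite hQ i
    have h3 : Q y := (hQdef y).2 ⟨h2, by omega⟩
    have h4 : Nat.count Q0 y = i := Nat.count_nth_of_infinite hQ i
    have h5 : Nat.count Q y = i := by
      rw [← h4]
      refine (count_agree Q0 Q y (fun m hm => ?_)).symm
      constructor
      · intro h; exact (hQdef m).2 ⟨h, by omega⟩
      · intro h; exact ((hQdef m).1 h).1
    have h6 := Nat.nth_count h3
    rw [h5] at h6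
    exact h6
  -- count above q
  have hcnt : ∀ m, q < m → Nat.count Q m + 1 = Nat.count Q0 m := by
    intro m hm
    rw [Nat.count_eq_card_filter_range, Nat.count_eq_card_filter_range]
    have : (range m).filter Q0 = insert q ((range m).filter Q) := by
      ext p
      simp only [mem_filter, mem_range, mem_insert, hQdef]
      constructor
      · rintro ⟨a, b⟩
        by_cases hp : p = q
        · left; exact hp
        · right; exact ⟨a, b, hp⟩
      · rintro (a | ⟨a, b, _⟩)
        · subst a; exact ⟨hm, hq⟩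
        · exact ⟨a, b⟩
    rw [this, card_insert_of_notMem]
    simp [hQdef]
  have hhigh : ∀ i, k ≤ i → Nat.nth Q i = Nat.nth Q0 (i + 1) := by
    intro i hi
    set y := Nat.nth Q0 (i + 1) with hy
    have h1 : q < y := by
      rw [← hqk]
      exact (Nat.nth_strictMono hQ) (by omega)
    have h2 : Q0 y := Nat.nth_mem_of_infinite hQ (i + 1)
    have h3 : Q y := (hQdef y).2 ⟨h2, by omega⟩
    have h4 : Nat.count Q0 y = i + 1 := Nat.count_nth_of_infinite hQ (i + 1)
    have h5 : Nat.count Q y = i := by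
      have := hcnt y h1
      omega
    have h6 := Nat.nth_count h3
    rw [h5] at h6
    exact h6
  have hkN : k < N := by
    rw [← (Nat.nth_strictMono hQ).lt_iff_lt, hqk]
    exact hN
  refine ⟨?_, ?_, by omega⟩
  · rw [hhigh (N - 1) (by omega)]
    congr 1
    omega
  · -- induction
    have key : ∀ j, sm Q0 (k + 1 + j) = sm Q (k + j) + q := by
      intro j
      induction j with
      | zero =>
        rw [add_zero, add_zero, sm_succ, hqk]
        congr 1
        unfold sm
        apply sum_congr rfl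
        intro i hi
        exact (hlow i (mem_range.1 hi)).symm
      | succ j ih =>
        rw [show k + 1 + (j + 1) = (k + 1 + j) + 1 by ring, sm_succ, ih,
          show k + (j + 1) = (k + j) + 1 by ring, sm_succ, hhigh (k + j) (by omega),
          show k + 1 + j = k + j + 1 by ring]
        ring
    have := key (N - 1 - k)
    rw [show k + 1 + (N - 1 - k) = N by omega, show k + (N - 1 - k) = N - 1 by omega] at this
    exact this

end Pool.Agent.Lib.MP_3ef1ab_nt
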