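import Pool.Agent.Lib.MP_3ef1ab_nt.E.Win

/-! MP_3ef1ab_nt, part E, module Gap: primes in `(y, (1 + δ) y]`; regularity of `hh` and `mm`. -/

set_option autoImplicit false

namespace Pool.Agent.Lib.MP_3ef1ab_nt

open Finset Filter Topology Asymptotics
open scoped Classical

theorem log_ratio (c : ℝ) (hc : 0 < c) :
    Tendsto (fun y : ℝ => Real.log y / Real.log (c * y)) atTop (𝓝 1) := by
  have h1 : Tendsto (fun y : ℝ => 1 + Real.log c / Real.log y) atTop (𝓝 (1 + 0)) :=
    tendsto_const_nhds.add (tendsto_const_nhds.div_atTop Real.tendsto_log_atTop)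
  rw [add_zero] at h1
  have h2 := h1.inv₀ one_ne_zero
  rw [inv_one] at h2
  refine h2.congr' ?_
  filter_upwards [eventually_gt_atTop (1 : ℝ), eventually_gt_atTop (1 / c)] with y hy hy2
  have hL : 0 < Real.log y := Real.log_pos hy
  have h0 : 0 < y := by linarith
  have h3 : Real.log (c * y) = Real.log c + Real.log y := Real.log_mul hc.ne' h0.ne'
  have h4 : 0 < Real.log (c * y) := Real.log_pos (by
    rw [div_lt_iff₀ hc] at hy2
    linarith)
  rw [h3] at h4 ⊢
  have h5 : 1 + Real.log c / Real.log y = (Real.log c + Real.log y) / Real.log y := by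
    field_simp
    ring
  rw [h5, inv_div]

theorem gap (hP : Tendsto (fun x : ℝ => (ct Nat.Prime x : ℝ) * Real.log x / x) atTop (𝓝 1))
    (δ : ℝ) (hδ : 0 < δ) :
    ∀ᶠ y : ℝ in atTop, ∃ q : ℕ, q.Prime ∧ y < q ∧ (q : ℝ) ≤ (1 + δ) * y := by
  have hc : 0 < 1 + δ := by linarith
  have h1 : Tendsto (fun y : ℝ => (ct Nat.Prime ((1 + δ) * y) : ℝ) * Real.log ((1 + δ) * y) /
      ((1 + δ) * y)) atTop (𝓝 1) := hP.comp (tendsto_id.const_mul_atTop hc)
  have h2 := (h1.mul (log_ratio (1 + δ) hc)).const_mul (1 + δ)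
  have h3 := h2.sub hP
  have h4 := h3.eventually_const_lt (show (0 : ℝ) < (1 + δ) * (1 * 1) - 1 by linarith)
  filter_upwards [h4, eventually_gt_atTop (1 : ℝ)] with y h5 hy
  have hL : 0 < Real.log y := Real.log_pos hy
  have h0 : 0 < y := by linarith
  have hL2 : 0 < Real.log ((1 + δ) * y) := Real.log_pos (by nlinarith)
  by_contra hcon
  push Not at hcon
  have h6 : ct Nat.Prime ((1 + δ) * y) = ct Nat.Prime y := by
    unfold ct
    congr 1
    ext m
    simp only [mem_filter, mem_Icc]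
    constructor
    · rintro ⟨⟨a1, a2⟩, a3⟩
      refine ⟨⟨a1, ?_⟩, a3⟩
      by_contra hm
      push Not at hm
      have b1 : y < m := (Nat.floor_lt h0.le).1 hm
      have b2 := hcon m a3 b1
      have b3 : (m : ℝ) ≤ (1 + δ) * y :=
        le_trans (by exact_mod_cast a2) (Nat.floor_le (by positivity))
      linarith
    · rintro ⟨⟨a1, a2⟩, a3⟩
      exact ⟨⟨a1, le_trans a2 (Nat.floor_le_floor (by nlinarith))⟩, a3⟩
  rw [h6] at h5
  have h7 : (1 + δ) * ((ct Nat.Prime y : ℝ) * Real.log ((1 + δ) * y) / ((1 + δ) * y) *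
      (Real.log y / Real.log ((1 + δ) * y))) - (ct Nat.Prime y : ℝ) * Real.log y / y = 0 := by
    field_simp
    ring
  linarith

/-- regularity -/
theorem reg (ε : ℝ) (hε : 0 < ε) : ∃ η : ℝ, 0 < η ∧ ∀ᶠ x : ℝ in atTop, ∀ y : ℝ,
    |y - x| ≤ η * x → |hh y - hh x| ≤ ε * hh x ∧ |mm y - mm x| ≤ ε * mm x := by
  set η := min (ε / 8) (1 / 8) with hη
  have hη0 : 0 < η := lt_min (by positivity) (by norm_num)
  have hη1 : η ≤ ε / 8 := min_le_left _ _
  have hη2 : η ≤ 1 / 8 := min_le_right _ _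
  refine ⟨η, hη0, ?_⟩
  have h1 : ∀ᶠ x : ℝ in atTop, 2 ≤ Real.log x := Real.tendsto_log_atTop.eventually_ge_atTop 2
  filter_upwards [h1, eventually_gt_atTop (2 : ℝ)] with x hL hx
  intro y hy
  rw [abs_le] at hy
  have hx0 : 0 < x := by linarith
  have hL0 : 0 < Real.log x := by linarith
  have hy1 : (1 - η) * x ≤ y := by linarith
  have hy2 : y ≤ (1 + η) * x := by linarith
  have hy0 : 0 < y := lt_of_lt_of_le (mul_pos (by linarith) hx0) hy1
  -- log y
  have l1 : Real.log y ≤ (1 + η) * Real.log x := by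
    have a1 : Real.log y ≤ Real.log ((1 + η) * x) := Real.log_le_log hy0 hy2
    rw [Real.log_mul (by linarith) hx0.ne'] at a1
    have a2 : Real.log (1 + η) ≤ η := by
      have := Real.log_le_sub_one_of_pos (show 0 < 1 + η by linarith)
      linarith
    nlinarith
  have l2 : (1 - η) * Real.log x ≤ Real.log y := by
    have a1 : Real.log ((1 - η) * x) ≤ Real.log y :=
      Real.log_le_log (mul_pos (by linarith) hx0) hy1
    rw [Real.log_mul (by linarith) hx0.ne'] at a1
    have a2 : -(2 * η) ≤ Real.log (1 - η) := by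
      have h3 := Real.one_sub_inv_le_log_of_pos (show 0 < 1 - η by linarith)
      have h4 : 1 - (1 - η)⁻¹ ≥ -(2 * η) := by
        have : (1 - η)⁻¹ ≤ 1 + 2 * η := by
          rw [inv_le_comm₀ (by linarith) (by linarith), inv_le_iff_one_le_mul₀ (by linarith)]
          nlinarith
        linarith
      linarith
    nlinarith
  have hLy : 0 < Real.log y := lt_of_lt_of_le (mul_pos (by linarith) hL0) l2
  have hhx : 0 ≤ hh x := Real.sqrt_nonneg _
  have hmx : 0 ≤ mm x := Real.sqrt_nonneg _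
  -- hh
  have u1 : hh y ≤ (1 + η) * hh x := by
    unfold hh
    rw [← Real.sqrt_sq (show 0 ≤ 1 + η by linarith), ← Real.sqrt_mul (sq_nonneg _)]
    apply Real.sqrt_le_sqrt
    calc y * Real.log y ≤ ((1 + η) * x) * ((1 + η) * Real.log x) :=
          mul_le_mul hy2 l1 hLy.le (by positivity)
      _ = (1 + η) ^ 2 * (x * Real.log x) := by ring
  have u2 : (1 - η) * hh x ≤ hh y := by
    unfold hh
    rw [← Real.sqrt_sq (show 0 ≤ 1 - η by linarith), ← Real.sqrt_mul (sq_nonneg _)]
    apply Real.sqrt_le_sqrt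
    calc (1 - η) ^ 2 * (x * Real.log x) = ((1 - η) * x) * ((1 - η) * Real.log x) := by ring
      _ ≤ y * Real.log y := mul_le_mul hy1 l2 (mul_nonneg (by linarith) hL0.le) hy0.le
  -- mm
  have v1 : mm y ≤ (1 + 4 * η) * mm x := by
    unfold mm
    rw [← Real.sqrt_sq (show 0 ≤ 1 + 4 * η by linarith), ← Real.sqrt_mul (sq_nonneg _)]
    apply Real.sqrt_le_sqrt
    rw [div_le_iff₀ hLy]
    calc y ≤ (1 + η) * x := hy2
      _ = (1 + η) / (1 - η) * (x / Real.log x) * ((1 - η) * Real.log x) := by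
          have : (1 - η) ≠ 0 := by linarith
          field_simp
      _ ≤ (1 + 4 * η) ^ 2 * (x / Real.log x) * Real.log y := by
          have b1 : (1 + η) / (1 - η) ≤ (1 + 4 * η) ^ 2 := by
            rw [div_le_iff₀ (by linarith)]
            have c1 : 0 ≤ η ^ 2 * (1 / 8 - η) := mul_nonneg (sq_nonneg _) (by linarith)
            nlinarith [sq_nonneg η]
          have b2 : 0 ≤ (1 + η) / (1 - η) := div_nonneg (by linarith) (by linarith)
          have b3 : 0 ≤ (1 - η) * Real.log x := mul_nonneg (by linarith) hL0.le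
          gcongr
  have v2 : (1 - 4 * η) * mm x ≤ mm y := by
    unfold mm
    rw [← Real.sqrt_sq (show 0 ≤ 1 - 4 * η by linarith), ← Real.sqrt_mul (sq_nonneg _)]
    apply Real.sqrt_le_sqrt
    rw [le_div_iff₀ hLy]
    calc (1 - 4 * η) ^ 2 * (x / Real.log x) * Real.log y
        ≤ (1 - 4 * η) ^ 2 * (x / Real.log x) * ((1 + η) * Real.log x) := by gcongr
      _ = (1 - 4 * η) ^ 2 * (1 + η) * x := by field_simp
      _ ≤ (1 - η) * x := by
          have b1 : (1 - 4 * η) ^ 2 * (1 + η) ≤ 1 - η := by nlinarith [sq_nonneg η]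
          gcongr
      _ ≤ y := hy1
  constructor
  · rw [abs_le]
    constructor <;> nlinarith
  · rw [abs_le]
    constructor <;> nlinarith

end Pool.Agent.Lib.MP_3ef1ab_nt
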