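import Pool.Agent.Lib.MP_3ef1ab_nt.E.One
import Pool.Agent.Lib.MP_3ef1ab_nt.E.Gap
import Pool.Agent.Lib.MP_3ef1ab_nt.E.Del

/-! MP_3ef1ab_nt, part E, module Align: deleting one prime puts a sum near any given point. -/

set_option autoImplicit false

namespace Pool.Agent.Lib.MP_3ef1ab_nt

open Finset Filter Topology Asymptotics
open scoped Classical

/-- the primes outside a finite set -/
def P0 (D : Finset ℕ) (p : ℕ) : Prop := p.Prime ∧ p ∉ D

theorem near_P0 (D : Finset ℕ) : Near (P0 D) := by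
  refine ⟨fun h => Nat.not_prime_zero h.1, ?_⟩
  have h1 : Tendsto (fun x : ℝ => (D.card : ℝ) / mm x) atTop (𝓝 0) :=
    tendsto_const_nhds.div_atTop mm_tendsto
  refine tendsto_of_tendsto_of_tendsto_of_le_of_le' tendsto_const_nhds h1 ?_ ?_
  · filter_upwards with x
    positivity
  · filter_upwards [eventually_gt_atTop (1 : ℝ)] with x hx
    have hm := mm_pos x hx
    apply div_le_div_of_nonneg_right _ hm.le
    have : ct (fun m => ¬ (P0 D m ↔ m.Prime)) x ≤ D.card := by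
      unfold ct
      apply card_le_card
      intro m hm
      simp only [mem_filter, P0] at hm
      by_contra hmD
      exact hm.2 ⟨fun h => h.1, fun h => ⟨h, hmD⟩⟩
    exact_mod_cast this

theorem hh_le {x y : ℝ} (hx : 1 ≤ x) (hxy : x ≤ y) : hh x ≤ hh y := by
  unfold hh
  apply Real.sqrt_le_sqrt
  have h1 := Real.log_nonneg hx
  have h2 := Real.log_le_log (by linarith) hxy
  exact mul_le_mul hxy h2 h1 (by linarith)

theorem sm_mono (Q : ℕ → Prop) : Monotone (sm Q) :=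
  monotone_nat_of_le_succ (fun n => by rw [sm_succ]; omega)

theorem al1 {δ h a b : ℝ} (hδ : 0 < δ) (hδ1 : δ ≤ 1 / 20) (hh : 0 < h)
    (h1 : b < (1 + δ / 8) * a) (h2 : a - h ≤ δ / 8 * h) : b ≤ (1 + δ / 2) * h := by
  have h3 : (1 + δ / 8) * a ≤ (1 + δ / 8) * ((1 + δ / 8) * h) :=
    mul_le_mul_of_nonneg_left (by linarith) (by linarith)
  have h4 : (1 + δ / 8) * (1 + δ / 8) ≤ 1 + δ / 2 := by nlinarith
  have h5 := mul_le_mul_of_nonneg_right h4 hh.le
  linarith

theorem al2 {δ h a c : ℝ} (hδ : 0 < δ) (hδ1 : δ ≤ 1 / 20) (hh : 0 < h)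
    (h1 : (1 - δ / 8) * a < c) (h2 : -(δ / 8 * h) ≤ a - h) : (1 - δ / 2) * h ≤ c := by
  have h3 : (1 - δ / 8) * ((1 - δ / 8) * h) ≤ (1 - δ / 8) * a :=
    mul_le_mul_of_nonneg_left (by linarith) (by linarith)
  have h4 : 1 - δ / 2 ≤ (1 - δ / 8) * (1 - δ / 8) := by nlinarith
  have h5 := mul_le_mul_of_nonneg_right h4 hh.le
  linarith

theorem al3 {δ m M t : ℝ} (hδ : 0 < δ) (hδ1 : δ ≤ 1 / 20) (hm : 0 < m) (_ht : 0 < t)
    (h1 : M < (1 + δ / 8) * t) (h2 : (1 - δ / 8) * t < M)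
    (h3 : -(δ / 8 * m) ≤ M - m) (h4 : M - m ≤ δ / 8 * m) :
    (1 - δ / 2) * m ≤ t ∧ t ≤ (1 + δ / 2) * m := by
  constructor
  · by_contra hcon
    push Not at hcon
    have h5 : (1 + δ / 8) * t < (1 + δ / 8) * ((1 - δ / 2) * m) :=
      mul_lt_mul_of_pos_left hcon (by linarith)
    have h6 : (1 + δ / 8) * (1 - δ / 2) ≤ 1 - δ / 8 := by nlinarith
    have h7 := mul_le_mul_of_nonneg_right h6 hm.le
    linarith
  · by_contra hcon
    push Not at hcon
    have h5 : (1 - δ / 8) * ((1 + δ / 2) * m) < (1 - δ / 8) * t :=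
      mul_lt_mul_of_pos_left hcon (by linarith)
    have h6 : 1 + δ / 8 ≤ (1 - δ / 8) * (1 + δ / 2) := by nlinarith
    have h7 := mul_le_mul_of_nonneg_right h6 hm.le
    linarith

theorem align (hP : Tendsto (fun x : ℝ => (ct Nat.Prime x : ℝ) * Real.log x / x) atTop (𝓝 1))
    (D : Finset ℕ) (δ : ℝ) (hδ : 0 < δ) (hδ1 : δ ≤ 1 / 20) :
    ∀ᶠ x : ℝ in atTop, ∃ q : ℕ, q.Prime ∧ q ∉ D ∧ δ * hh x < q ∧ ∃ n : ℕ,
      |((sm (fun p => P0 D p ∧ p ≠ q) n : ℕ) : ℝ) - x| ≤ 6 * δ * hh x ∧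
      |((Nat.nth (fun p => P0 D p ∧ p ≠ q) n : ℕ) : ℝ) - hh x| ≤ δ * hh x ∧
      |(n : ℝ) / 2 - mm x| ≤ δ * mm x ∧
      q < Nat.nth (fun p => P0 D p ∧ p ≠ q) n := by
  have hQ : PLike (P0 D) := (near_P0 D).plike hP
  have hinf := hQ.infinite
  -- eventual properties in n
  have a1 := Metric.tendsto_nhds.1 hQ.nth_hh (δ / 8) (by positivity)
  have a2 := Metric.tendsto_nhds.1 hQ.mm_sm (δ / 8) (by positivity)
  have a3 := hQ.sm_tendsto.eventually_gt_atTop 2
  obtain ⟨n0, hn0⟩ := eventually_atTop.1 ((a1.and a2).and a3)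
  obtain ⟨η, hη, hreg⟩ := reg (δ / 8) (by positivity)
  -- eventual properties in x
  have b1 : ∀ᶠ x : ℝ in atTop, ((sm (P0 D) (n0 + 1) : ℕ) : ℝ) < x := eventually_gt_atTop _
  have b2 : ∀ᶠ x : ℝ in atTop, hh x / x ≤ min (η / 8) (1 / 8) := by
    have := hh_div.eventually_lt_const (show (0 : ℝ) < min (η / 8) (1 / 8) by positivity)
    filter_upwards [this] with x hx using hx.le
  have b3 : ∀ᶠ x : ℝ in atTop, ((D.sup id : ℕ) : ℝ) ≤ δ * hh x :=
    (hh_tendsto.const_mul_atTop hδ).eventually_ge_atTop _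
  have b4 : ∀ᶠ x : ℝ in atTop, ∀ y : ℝ, δ * hh x ≤ y → ∃ q : ℕ, q.Prime ∧ y < q ∧
      (q : ℝ) ≤ (1 + δ / 8) * y := by
    obtain ⟨y0, hy0⟩ := eventually_atTop.1 (gap hP (δ / 8) (by positivity))
    filter_upwards [(hh_tendsto.const_mul_atTop hδ).eventually_ge_atTop y0] with x hx y hy
    exact hy0 y (hx.trans hy)
  have b5 : ∀ᶠ x : ℝ in atTop, 3 ≤ δ * mm x :=
    (mm_tendsto.const_mul_atTop hδ).eventually_ge_atTop _
  -- hh (x + h) ≤ 2 hh x
  have b6 : ∀ᶠ x : ℝ in atTop, ∀ y : ℝ, |y - x| ≤ hh x → hh y ≤ 2 * hh x := by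
    obtain ⟨η1, hη1, hreg1⟩ := reg 1 one_pos
    have c1 : ∀ᶠ x : ℝ in atTop, hh x / x < η1 := hh_div.eventually_lt_const hη1
    filter_upwards [hreg1, c1, eventually_gt_atTop (1 : ℝ)] with x h1 h2 h3 y hy
    have h0 : 0 < x := by linarith
    rw [div_lt_iff₀ h0] at h2
    have := (h1 y (hy.trans h2.le)).1
    rw [abs_le] at this
    linarith
  filter_upwards [hreg, b1, b2, b3, b4, b5, b6, eventually_gt_atTop (2 : ℝ)] with
    x hreg b1 b2 b3 b4 b5 b6 hx
  have hx0 : 0 < x := by linarith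
  set h := hh x with hh_def
  have hhp : 0 < h := hh_pos x (by linarith)
  have hmp : 0 < mm x := mm_pos x (by linarith)
  have hη8 : 8 * h ≤ η * x := by
    have := b2.trans (min_le_left _ _)
    rw [div_le_iff₀ hx0] at this
    linarith
  have hx8 : 8 * h ≤ x := by
    have := b2.trans (min_le_right _ _)
    rw [div_le_iff₀ hx0] at this
    linarith
  -- the index N
  have hex : ∃ N : ℕ, x + 4 * δ * h ≤ ((sm (P0 D) N : ℕ) : ℝ) :=
    (hQ.sm_tendsto.eventually_ge_atTop _).exists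
  set N := Nat.find hex with hN
  have hN1 : x + 4 * δ * h ≤ ((sm (P0 D) N : ℕ) : ℝ) := Nat.find_spec hex
  have hNn0 : n0 + 1 < N := by
    by_contra hc
    push Not at hc
    have h1 : ((sm (P0 D) N : ℕ) : ℝ) ≤ ((sm (P0 D) (n0 + 1) : ℕ) : ℝ) := by
      exact_mod_cast sm_mono _ hc
    have h2 : 0 < 4 * δ * h := by positivity
    linarith
  have hN2 : ((sm (P0 D) (N - 1) : ℕ) : ℝ) < x + 4 * δ * h := by
    have := Nat.find_min hex (show N - 1 < N by omega)
    push Not at this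
    exact this
  have hS : sm (P0 D) N = sm (P0 D) (N - 1) + Nat.nth (P0 D) (N - 1) := by
    rw [← sm_succ]
    congr 1
    omega
  have hSr : ((sm (P0 D) N : ℕ) : ℝ) =
      ((sm (P0 D) (N - 1) : ℕ) : ℝ) + ((Nat.nth (P0 D) (N - 1) : ℕ) : ℝ) := by
    rw [hS]; push_cast; ring
  obtain ⟨⟨p1, p2⟩, p3⟩ := hn0 (N - 1) (by omega)
  obtain ⟨⟨q1, q2⟩, q3⟩ := hn0 N (by omega)
  set S := ((sm (P0 D) N : ℕ) : ℝ) with hSdef
  set S' := ((sm (P0 D) (N - 1) : ℕ) : ℝ) with hS'def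
  set b := ((Nat.nth (P0 D) (N - 1) : ℕ) : ℝ) with hbdef
  set c := ((Nat.nth (P0 D) N : ℕ) : ℝ) with hcdef
  have hhS' : 0 < hh S' := hh_pos _ (by linarith)
  have hhS : 0 < hh S := hh_pos _ (by linarith)
  rw [Real.dist_eq] at p1 q1 q2
  rw [abs_lt] at p1 q1
  have pb1 : b < (1 + δ / 8) * hh S' := by
    have := p1.2
    rw [sub_lt_iff_lt_add, div_lt_iff₀ hhS'] at this
    linarith
  have pb2 : (1 - δ / 8) * hh S' < b := by
    have := p1.1
    rw [lt_sub_iff_add_lt, lt_div_iff₀ hhS'] at this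
    linarith
  have qc1 : c < (1 + δ / 8) * hh S := by
    have := q1.2
    rw [sub_lt_iff_lt_add, div_lt_iff₀ hhS] at this
    linarith
  have qc2 : (1 - δ / 8) * hh S < c := by
    have := q1.1
    rw [lt_sub_iff_add_lt, lt_div_iff₀ hhS] at this
    linarith
  have hδh : δ * h ≤ h / 20 := by
    have := mul_le_mul_of_nonneg_right hδ1 hhp.le
    linarith
  have hδp : 0 < δ * h := mul_pos hδ hhp
  have hS'le : hh S' ≤ 2 * h := by
    calc hh S' ≤ hh (x + 4 * δ * h) := hh_le (by linarith) hN2.le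
      _ ≤ 2 * h := b6 _ (by
        rw [add_sub_cancel_left, abs_of_nonneg (by positivity)]
        linarith)
  have hb4 : b ≤ 4 * h := by
    have e1 : (1 + δ / 8) * hh S' ≤ (1 + δ / 8) * (2 * h) :=
      mul_le_mul_of_nonneg_left hS'le (by linarith)
    have e2 : (1 + δ / 8) * (2 * h) ≤ 4 * h := by linarith
    linarith
  have hbpos : 0 ≤ b := by positivity
  have r1 := hreg S' (by
    rw [abs_le]
    constructor <;> linarith)
  have r2 := hreg S (by
    rw [abs_le]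
    constructor <;> linarith)
  rw [abs_le, abs_le] at r1 r2
  obtain ⟨⟨r11, r12⟩, ⟨r13, r14⟩⟩ := r1
  obtain ⟨⟨r21, r22⟩, ⟨r23, r24⟩⟩ := r2
  have hbu : b ≤ (1 + δ / 2) * h := al1 hδ hδ1 hhp pb1 r12
  have hcu : c ≤ (1 + δ / 2) * h := al1 hδ hδ1 hhp qc1 r22
  have hcl : (1 - δ / 2) * h ≤ c := al2 hδ hδ1 hhp qc2 r21
  have hbc : b < c := by
    rw [hbdef, hcdef]
    exact_mod_cast (Nat.nth_strictMono hinf) (show N - 1 < N by omega)
  -- the prime q
  set y := max (S - x - 5 * δ * h) (δ * h) with hy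
  have hy1 : δ * h ≤ y := le_max_right _ _
  have hy2 : y ≤ 2 * h := by
    apply max_le <;> linarith
  obtain ⟨q, hq1, hq2, hq3⟩ := b4 y hy1
  have hq4 : (q : ℝ) ≤ y + δ * h / 4 := by
    have e1 : δ / 8 * y ≤ δ / 8 * (2 * h) := mul_le_mul_of_nonneg_left hy2 (by linarith)
    linarith
  have hqD : q ∉ D := by
    intro hqD
    have h1 : q ≤ D.sup id := Finset.le_sup (f := id) hqD
    have h2 : (q : ℝ) ≤ ((D.sup id : ℕ) : ℝ) := by exact_mod_cast h1
    linarith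
  have hqc : (q : ℝ) < c := by
    rcases le_total (δ * h) (S - x - 5 * δ * h) with hcase | hcase
    · rw [max_eq_left hcase] at hy
      linarith
    · rw [max_eq_right hcase] at hy
      linarith
  have hqN : q < Nat.nth (P0 D) N := by
    rw [hcdef] at hqc
    exact_mod_cast hqc
  obtain ⟨d1, d2, d3⟩ := del (P0 D) hinf q ⟨hq1, hqD⟩ N hqN
  refine ⟨q, hq1, hqD, lt_of_le_of_lt hy1 hq2, N - 1, ?_, ?_, ?_, ?_⟩
  · have e1 : ((sm (fun p => P0 D p ∧ p ≠ q) (N - 1) : ℕ) : ℝ) = S - q := by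
      rw [hSdef, d2]
      push_cast
      ring
    rw [e1]
    rcases le_total (δ * h) (S - x - 5 * δ * h) with hcase | hcase
    · rw [max_eq_left hcase] at hy
      rw [abs_le]
      constructor <;> linarith
    · rw [max_eq_right hcase] at hy
      rw [abs_le]
      constructor <;> linarith
  · rw [d1, abs_le]
    constructor <;> linarith
  · -- the index
    have hNpos : (0 : ℝ) < (N : ℝ) := by exact_mod_cast (by omega : 0 < N)
    rw [abs_lt] at q2
    have t1 : mm S < (1 + δ / 8) * ((N : ℝ) / 2) := by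
      have := q2.2
      rw [sub_lt_iff_lt_add, div_lt_iff₀ (by positivity)] at this
      linarith
    have t2 : (1 - δ / 8) * ((N : ℝ) / 2) < mm S := by
      have := q2.1
      rw [lt_sub_iff_add_lt, lt_div_iff₀ (by positivity)] at this
      linarith
    have hc : ((N - 1 : ℕ) : ℝ) = N - 1 := by
      rw [Nat.cast_sub (by omega)]; norm_num
    obtain ⟨t3, t4⟩ := al3 hδ hδ1 hmp (by positivity) t1 t2 r23 r24
    rw [hc, abs_le]
    constructor <;> linarith
  · rw [d1]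
    exact hqN

end Pool.Agent.Lib.MP_3ef1ab_nt
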