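import Pool.Agent.Lib.MP_3ef1ab_nt.E.Defs
import Pool.Agent.Lib.BV.SpecF

/-! MP_3ef1ab_nt, part E, module Bt: an upper bound for the number of primes in short intervals. -/

set_option autoImplicit false

namespace Pool.Agent.Lib.MP_3ef1ab_nt

open Finset Filter Topology Asymptotics
open scoped Classical

/-- Brun-Titchmarsh with some constant -/
def BtStmt : Prop := ∃ C : ℝ, 0 < C ∧ ∃ Y0 : ℕ, 3 ≤ Y0 ∧ ∀ N Y : ℕ, Y0 ≤ Y →
  (((Ioc N (N + Y)).filter Nat.Prime).card : ℝ) ≤ C * ((Y : ℝ) / Real.log Y)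

theorem tBt (h : Pool.Agent.Lib.BV.UbStmt) : BtStmt := by
  obtain ⟨C, hC, h⟩ := h
  -- parameters: z = ⌊Y^(1/32)⌋
  have hlarge : ∀ᶠ Y : ℕ in atTop, (2 : ℝ) ≤ (Y : ℝ) ^ ((1 : ℝ) / 32) ∧
      2 * Real.sqrt Y ≤ (Y : ℝ) / Real.log Y := by
    have h1 : Tendsto (fun Y : ℕ => (Y : ℝ) ^ ((1 : ℝ) / 32)) atTop atTop :=
      (tendsto_rpow_atTop (by norm_num)).comp tendsto_natCast_atTop_atTop
    have h2 : ∀ᶠ x : ℝ in atTop, 2 * Real.sqrt x ≤ x / Real.log x := by
      have := (isLittleO_log_rpow_atTop (show (0 : ℝ) < 1 / 2 by norm_num)).def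
        (show (0 : ℝ) < 1 / 2 by norm_num)
      filter_upwards [this, eventually_ge_atTop (3 : ℝ)] with x hx hx3
      have hL : 0 < Real.log x := Real.log_pos (by linarith)
      rw [Real.norm_of_nonneg hL.le, Real.norm_of_nonneg (by positivity),
        ← Real.sqrt_eq_rpow] at hx
      rw [le_div_iff₀ hL]
      have hs : Real.sqrt x * Real.sqrt x = x := Real.mul_self_sqrt (by linarith)
      have hs0 : 0 ≤ Real.sqrt x := Real.sqrt_nonneg x
      nlinarith
    exact (h1.eventually_ge_atTop 2).and (tendsto_natCast_atTop_atTop.eventually h2)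
  obtain ⟨Y1, hY1⟩ := eventually_atTop.1 hlarge
  refine ⟨64 * C + 1, by positivity, max Y1 3, le_max_right _ _, ?_⟩
  intro N Y hY
  obtain ⟨hz2, hsq⟩ := hY1 Y (le_trans (le_max_left _ _) hY)
  have hY3 : 3 ≤ Y := le_trans (le_max_right _ _) hY
  have hY0 : (0 : ℝ) < Y := by exact_mod_cast (by omega : 0 < Y)
  have hY3' : (3 : ℝ) ≤ Y := by exact_mod_cast hY3
  have hLY : 0 < Real.log Y := Real.log_pos (by linarith)
  set r := (Y : ℝ) ^ ((1 : ℝ) / 32) with hr
  set z := ⌊r⌋₊ with hz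
  have hr0 : 0 ≤ r := by positivity
  have hzr : (z : ℝ) ≤ r := Nat.floor_le hr0
  have hz1 : 2 ≤ z := Nat.le_floor (by exact_mod_cast hz2)
  have hrz : r < z + 1 := Nat.lt_floor_add_one r
  have hz0 : (2 : ℝ) ≤ z := by exact_mod_cast hz1
  -- log z ≥ log Y / 64
  have hlz : Real.log Y / 64 ≤ Real.log z := by
    have h1 : Real.log r = Real.log Y / 32 := by
      rw [hr, Real.log_rpow hY0]; ring
    have h2 : r ≤ (z : ℝ) ^ 2 := by nlinarith
    have h3 : Real.log r ≤ Real.log ((z : ℝ) ^ 2) := Real.log_le_log (by linarith) h2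
    rw [Real.log_pow, h1] at h3
    push_cast at h3
    linarith
  have hlz0 : 0 < Real.log z := by linarith [div_pos hLY (show (0 : ℝ) < 64 by norm_num)]
  have hub := h z 1 0 N (N + Y) hz1 le_rfl (Nat.coprime_one_right 0) (by omega)
  rw [Nat.totient_one] at hub
  -- the primes
  have hcard : (((Ioc N (N + Y)).filter Nat.Prime).card : ℝ) ≤ z +
      ∑ n ∈ (Ioc N (N + Y)).filter (fun n => n ≡ 0 [MOD 1]), Pool.Agent.Lib.BV.rr z n := by
    have h1 : (Ioc N (N + Y)).filter Nat.Prime ⊆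
        Icc 1 z ∪ (Ioc N (N + Y)).filter (fun n => Pool.Agent.Lib.BV.Rough z n) := by
      intro p hp
      rw [mem_filter] at hp
      rw [mem_union]
      by_cases hpz : p ≤ z
      · left
        rw [mem_Icc]
        exact ⟨hp.2.one_lt.le, hpz⟩
      · right
        rw [mem_filter]
        refine ⟨hp.1, fun q hq hqp => ?_⟩
        have := (Nat.prime_dvd_prime_iff_eq hq hp.2).1 hqp
        omega
    have h2 := card_le_card h1
    have h3 := card_union_le (Icc 1 z)
      ((Ioc N (N + Y)).filter (fun n => Pool.Agent.Lib.BV.Rough z n))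
    rw [Nat.card_Icc] at h3
    have h4 : (((Ioc N (N + Y)).filter (fun n => Pool.Agent.Lib.BV.Rough z n)).card : ℝ) =
        ∑ n ∈ (Ioc N (N + Y)).filter (fun n => n ≡ 0 [MOD 1]), Pool.Agent.Lib.BV.rr z n := by
      rw [card_filter]
      push_cast
      have : (Ioc N (N + Y)).filter (fun n => n ≡ 0 [MOD 1]) = Ioc N (N + Y) := by
        apply filter_true_of_mem
        intro n _
        exact Nat.modEq_one
      rw [this]
      apply sum_congr rfl
      intro n _
      unfold Pool.Agent.Lib.BV.rr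
      congr
    rw [← h4]
    have h5 : ((Ioc N (N + Y)).filter Nat.Prime).card ≤
        z + ((Ioc N (N + Y)).filter (fun n => Pool.Agent.Lib.BV.Rough z n)).card := by omega
    exact_mod_cast h5
  have hr16 : (z : ℝ) ^ 16 ≤ Real.sqrt Y := by
    calc (z : ℝ) ^ 16 ≤ r ^ 16 := pow_le_pow_left₀ (by positivity) hzr 16
      _ = Real.sqrt Y := by
        rw [hr, ← Real.rpow_natCast, ← Real.rpow_mul hY0.le, Real.sqrt_eq_rpow]
        norm_num
  have hz16 : (z : ℝ) ≤ (z : ℝ) ^ 16 := by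
    calc (z : ℝ) = (z : ℝ) ^ 1 := (pow_one _).symm
      _ ≤ (z : ℝ) ^ 16 := pow_le_pow_right₀ (by linarith) (by norm_num)
  have hcast : (((N + Y : ℕ) : ℝ) - N) = Y := by push_cast; ring
  rw [hcast] at hub
  have hmain : C * ((Y : ℝ) / (((1 : ℕ) : ℝ) * Real.log z)) ≤ 64 * C * ((Y : ℝ) / Real.log Y) := by
    have : (Y : ℝ) / (((1 : ℕ) : ℝ) * Real.log z) ≤ 64 * ((Y : ℝ) / Real.log Y) := by
      rw [Nat.cast_one, one_mul, div_le_iff₀ hlz0]
      calc (Y : ℝ) = 64 * ((Y : ℝ) / Real.log Y) * (Real.log Y / 64) := by field_simp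
        _ ≤ 64 * ((Y : ℝ) / Real.log Y) * Real.log z := by gcongr
    nlinarith
  have : (64 * C + 1) * ((Y : ℝ) / Real.log Y) =
      64 * C * ((Y : ℝ) / Real.log Y) + (Y : ℝ) / Real.log Y := by ring
  rw [this]
  linarith

end Pool.Agent.Lib.MP_3ef1ab_nt
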