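import Mathlib

/-! MP_3ef1ab_nt, part E: the stable form of Sun's conjecture. Definitions. -/

set_option autoImplicit false

namespace Pool.Agent.Lib.MP_3ef1ab_nt

open Finset Filter Topology
open scoped Classical

/-- The sum of the first `n` elements of the set `Q` of natural numbers, in increasing order. -/
noncomputable def sm (Q : ℕ → Prop) (n : ℕ) : ℕ := ∑ i ∈ range n, Nat.nth Q i

/-- The number of elements of `Q` strictly between the sum of the first `n` and the sum of the
first `n + 1` elements of `Q`. -/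
noncomputable def cn (Q : ℕ → Prop) (n : ℕ) : ℕ :=
  ((Ioo (sm Q n) (sm Q (n + 1))).filter Q).card

/-- The number of elements `m` of `Q` with `1 ≤ m ≤ x`. -/
noncomputable def ct (Q : ℕ → Prop) (x : ℝ) : ℕ := ((Icc 1 ⌊x⌋₊).filter Q).card

/-- Sun's law for the set `Q`: the number of elements of `Q` strictly between the sum of the first
`n` and of the first `n + 1` elements of `Q` is asymptotically `n / 2`. -/
def SunLaw (Q : ℕ → Prop) : Prop :=
  Tendsto (fun n : ℕ => 2 * (cn Q n : ℝ) / n) atTop (𝓝 1)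

/-- The prime number theorem for all intervals of length `√(x log x)`. -/
def ShortPNT : Prop :=
  Tendsto (fun x : ℝ => ((ct Nat.Prime (x + √(x * Real.log x)) : ℝ) - ct Nat.Prime x) /
    √(x / Real.log x)) atTop (𝓝 1)

/-- `Q` is a set of positive integers which differs from the set of primes in `o(√(x / log x))`
elements up to `x`. -/
def Near (Q : ℕ → Prop) : Prop :=
  ¬ Q 0 ∧ Tendsto (fun x : ℝ => (ct (fun m => ¬ (Q m ↔ m.Prime)) x : ℝ) / √(x / Real.log x))
    atTop (𝓝 0)

/-- Sun's law for all small perturbations of the set of primes. -/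
def AllNear : Prop := ∀ Q : ℕ → Prop, Near Q → SunLaw Q

/-- Sun's law for the primes outside every set `D` of primes with at most `g n` elements up to
`n`, for all `n`. -/
def SparseDel (g : ℕ → ℕ) : Prop := ∀ D : ℕ → Prop, (∀ m, D m → m.Prime) →
  (∀ n : ℕ, ct D n ≤ g n) → SunLaw (fun p => p.Prime ∧ ¬ D p)

/-- Sun's law for the primes different from `q`, uniformly in the prime `q`. -/
def UniDel : Prop := ∀ ε : ℝ, 0 < ε → ∀ᶠ n : ℕ in atTop, ∀ q : ℕ, q.Prime →
  |2 * (cn (fun p => p.Prime ∧ p ≠ q) n : ℝ) / n - 1| ≤ ε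

/-- The number of primes strictly between `p_(k+1) + ... + p_(k+n)` and
`p_(k+1) + ... + p_(k+n+1)` (where `p_(i+1) = Nat.nth Nat.Prime i`). -/
noncomputable def cnk (k n : ℕ) : ℕ :=
  ((Ioo (∑ i ∈ Ico k (k + n), Nat.nth Nat.Prime i)
    (∑ i ∈ Ico k (k + n + 1), Nat.nth Nat.Prime i)).filter Nat.Prime).card

/-- Sun's law for the sums of consecutive primes, uniformly in the first prime `p_(k+1)`,
`k ≤ K n`. -/
def UniStart (K : ℕ → ℕ) : Prop := ∀ ε : ℝ, 0 < ε → ∀ᶠ n : ℕ in atTop, ∀ k : ℕ, k ≤ K n →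
  |2 * (cnk k n : ℝ) / n - 1| ≤ ε

end Pool.Agent.Lib.MP_3ef1ab_nt
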