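import Pool.Agent.Lib.MP_3ef1ab_nt.E.Win

/-! MP_3ef1ab_nt, part E, module Fs: auxiliary bounds for the first prime. -/

set_option autoImplicit false

namespace Pool.Agent.Lib.MP_3ef1ab_nt

open Finset Filter Topology Asymptotics
open scoped Classical

/-- `S_k ≤ p_(N+1)` implies `k ≤ (5/2) √N` -/
theorem start_le (hQ : PLike Nat.Prime) : ∀ᶠ N : ℕ in atTop, ∀ k : ℕ,
    ((sm Nat.Prime k : ℕ) : ℝ) ≤ Nat.nth Nat.Prime N → (k : ℝ) ≤ 5 / 2 * √N := by
  have h1 := Metric.tendsto_nhds.1 hQ.nth3 (1 / 16) (by norm_num)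
  have h2 := Metric.tendsto_nhds.1 hQ.sum_asymp (1 / 16) (by norm_num)
  obtain ⟨n1, hn1⟩ := eventually_atTop.1 (h2.and (eventually_ge_atTop 3))
  have h3 : ∀ᶠ N : ℕ in atTop, (n1 : ℝ) ≤ √N :=
    (Real.tendsto_sqrt_atTop.comp tendsto_natCast_atTop_atTop).eventually_ge_atTop _
  filter_upwards [h1, h3, eventually_ge_atTop 9] with N h1 h3 h9 k hk
  by_contra hcon
  push Not at hcon
  have hN9 : (9 : ℝ) ≤ N := by exact_mod_cast h9
  have hN0 : (0 : ℝ) < N := by linarith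
  have hLN : 0 < Real.log N := Real.log_pos (by linarith)
  have hsN : √N * √N = N := Real.mul_self_sqrt hN0.le
  have hs0 : 0 < √(N : ℝ) := Real.sqrt_pos.2 hN0
  have hkn1 : n1 ≤ k := by
    have : (n1 : ℝ) ≤ k := by linarith
    exact_mod_cast this
  obtain ⟨a1, a2⟩ := hn1 k hkn1
  have hk3 : (3 : ℝ) ≤ k := by exact_mod_cast a2
  have hk0 : (0 : ℝ) < k := by linarith
  have hLk : 0 < Real.log k := Real.log_pos (by linarith)
  have hF : 0 < FF k := by unfold FF; positivity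
  rw [Real.dist_eq, abs_lt] at a1 h1
  have b1 := a1.1
  rw [lt_sub_iff_add_lt, lt_div_iff₀ hF] at b1
  have b2 := h1.2
  rw [sub_lt_iff_lt_add, div_lt_iff₀ (by positivity)] at b2
  -- FF k ≥ (25/16) N log N
  have hlogk : Real.log N / 2 ≤ Real.log k := by
    have : Real.log (√N) ≤ Real.log k := Real.log_le_log hs0 (by linarith)
    rwa [Real.log_sqrt hN0.le] at this
  have hk2 : 25 / 4 * (N : ℝ) ≤ (k : ℝ) ^ 2 := by
    have : (5 / 2 * √N) ^ 2 ≤ (k : ℝ) ^ 2 := pow_le_pow_left₀ (by positivity) hcon.le 2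
    have e : (5 / 2 * √(N : ℝ)) ^ 2 = 25 / 4 * (√N * √N) := by ring
    rw [e, hsN] at this
    exact this
  have hFk : 25 / 16 * (N * Real.log N) ≤ FF k := by
    unfold FF
    have := mul_le_mul hk2 hlogk (by positivity) (by positivity)
    linarith
  have hG : 0 < (N : ℝ) * Real.log N := by positivity
  linarith

/-- the first primes are small -/
theorem start_small (hQ : PLike Nat.Prime) (δ : ℝ) (hδ : 0 < δ) : ∀ᶠ N : ℕ in atTop, ∀ k : ℕ, (k : ℝ) ≤ 5 / 2 * √(N : ℝ) →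
    ((Nat.nth Nat.Prime k : ℕ) : ℝ) ≤ δ * hh (sm Nat.Prime N) ∧ (k : ℝ) ≤ δ / 16 * N := by
  have hinf := hQ.infinite
  -- use nth3 at the floor of 3 √N
  have b1 := Metric.tendsto_nhds.1 hQ.nth3 (1 / 2) (by norm_num)
  have b2 := Metric.tendsto_nhds.1 hQ.hh_sm (1 / 2) (by norm_num)
  obtain ⟨n2, hn2⟩ := eventually_atTop.1 b1
  have b3 : ∀ᶠ N : ℕ in atTop, ((n2 : ℝ) + 3) ≤ √N :=
    (Real.tendsto_sqrt_atTop.comp tendsto_natCast_atTop_atTop).eventually_ge_atTop _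
  have b4 : ∀ᶠ N : ℕ in atTop, 100 / δ ≤ √(N : ℝ) :=
    (Real.tendsto_sqrt_atTop.comp tendsto_natCast_atTop_atTop).eventually_ge_atTop _
  filter_upwards [b2, b3, b4, eventually_ge_atTop 9] with N b2 b3 b4 b5 k hk
  have hN9 : (9 : ℝ) ≤ N := by exact_mod_cast b5
  have hN0 : (0 : ℝ) < N := by linarith
  have hLN : 0 < Real.log N := Real.log_pos (by linarith)
  have hsN : √N * √N = (N : ℝ) := Real.mul_self_sqrt hN0.le
  have hs0 : 0 < √(N : ℝ) := Real.sqrt_pos.2 hN0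
  have hs3 : 3 ≤ √(N : ℝ) := by
    have : (0 : ℝ) ≤ n2 := Nat.cast_nonneg _
    linarith
  rw [div_le_iff₀ hδ] at b4
  constructor
  · set m := ⌊5 / 2 * √(N : ℝ)⌋₊ with hm
    have hm1 : (m : ℝ) ≤ 5 / 2 * √(N : ℝ) := Nat.floor_le (by positivity)
    have hm2 : 5 / 2 * √(N : ℝ) < m + 1 := Nat.lt_floor_add_one _
    have hkm : k ≤ m := Nat.le_floor hk
    have hm3 : n2 ≤ m := by
      have : (n2 : ℝ) ≤ m := by linarith
      exact_mod_cast this
    have hm4 : (3 : ℝ) ≤ m := by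
      have : (0 : ℝ) ≤ n2 := Nat.cast_nonneg _
      linarith
    have c1 := hn2 m hm3
    have hLm : 0 < Real.log m := Real.log_pos (by linarith)
    rw [Real.dist_eq, abs_lt] at c1 b2
    have c2 := c1.2
    rw [sub_lt_iff_lt_add, div_lt_iff₀ (by positivity)] at c2
    have c3 := b2.1
    rw [lt_sub_iff_add_lt, lt_div_iff₀ (by positivity)] at c3
    have hmN : (m : ℝ) ≤ N := by nlinarith
    have hlm : Real.log m ≤ Real.log N := Real.log_le_log (by linarith) hmN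
    have hkk : ((Nat.nth Nat.Prime k : ℕ) : ℝ) ≤ Nat.nth Nat.Prime m := by
      exact_mod_cast (Nat.nth_monotone hinf) hkm
    have d1 : (m : ℝ) * Real.log m ≤ 5 / 2 * √(N : ℝ) * Real.log N :=
      mul_le_mul hm1 hlm hLm.le (by positivity)
    have d2 : 100 * √(N : ℝ) ≤ δ * N := by
      calc 100 * √(N : ℝ) ≤ (√N * δ) * √N := mul_le_mul_of_nonneg_right b4 hs0.le
        _ = δ * (√N * √N) := by ring
        _ = δ * N := by rw [hsN]
    have d3 : 100 * √(N : ℝ) * Real.log N ≤ δ * N * Real.log N :=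
      mul_le_mul_of_nonneg_right d2 hLN.le
    have d4 : δ * (N * Real.log N) ≤ δ * (2 * hh (sm Nat.Prime N)) := by
      apply mul_le_mul_of_nonneg_left _ hδ.le
      linarith
    have d5 : 0 < √(N : ℝ) * Real.log N := by positivity
    linarith
  · have d2 : 100 * √(N : ℝ) ≤ δ * N := by
      calc 100 * √(N : ℝ) ≤ (√N * δ) * √N := mul_le_mul_of_nonneg_right b4 hs0.le
        _ = δ * (√N * √N) := by ring
        _ = δ * N := by rw [hsN]
    linarith

end Pool.Agent.Lib.MP_3ef1ab_nt
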