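import Pool.Agent.Lib.MP_3ef1ab_nt.E.Four
import Pool.Agent.Lib.MP_3ef1ab_nt.E.Fs

/-! MP_3ef1ab_nt, part E, module Five: sums of consecutive primes with an arbitrary first prime. -/

set_option autoImplicit false

namespace Pool.Agent.Lib.MP_3ef1ab_nt

open Finset Filter Topology Asymptotics
open scoped Classical

theorem sum_Ico_sm (k m : ℕ) (h : k ≤ m) :
    sm Nat.Prime k + ∑ i ∈ Ico k m, Nat.nth Nat.Prime i = sm Nat.Prime m := by
  unfold sm
  exact sum_range_add_sum_Ico _ h

theorem one_five (hW : WinStmt)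
    (hP : Tendsto (fun x : ℝ => (ct Nat.Prime x : ℝ) * Real.log x / x) atTop (𝓝 1))
    (hS : ShortPNT) (K : ℕ → ℕ) (hK : Tendsto (fun n : ℕ => (K n : ℝ) / n) atTop (𝓝 0)) :
    UniStart K := by
  intro ε hε
  have hQ := plike_prime hP
  have hinf := hQ.infinite
  obtain ⟨δ, hδ, h1⟩ := tile2 hW hP hS ε hε
  obtain ⟨κ, hκ, hg⟩ := growth hQ δ hδ
  filter_upwards [h1, hg, hK.eventually_lt_const hκ, eventually_ge_atTop 1] with n h1 hg hk hn
  intro k hkK
  have hn0 : (0 : ℝ) < n := by exact_mod_cast hn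
  have hkn : (k : ℝ) ≤ κ * n := by
    rw [div_lt_iff₀ hn0] at hk
    have : (k : ℝ) ≤ K n := by exact_mod_cast hkK
    linarith
  have g1 := hg.1 (k + n) (by omega) (by push_cast; linarith)
  have g2 := hg.2 k hkn
  have s1 := sum_Ico_sm k (k + n) (by omega)
  have s2 := sum_Ico_sm k (k + n + 1) (by omega)
  have s3 := sm_succ Nat.Prime (k + n)
  unfold cnk
  apply h1
  · have s1' : ((sm Nat.Prime k : ℕ) : ℝ) +
        ((∑ i ∈ Ico k (k + n), Nat.nth Nat.Prime i : ℕ) : ℝ) = (sm Nat.Prime (k + n) : ℕ) := by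
      exact_mod_cast s1
    have hm : ((sm Nat.Prime n : ℕ) : ℝ) ≤ (sm Nat.Prime (k + n) : ℕ) := by
      exact_mod_cast sm_mono _ (by omega)
    have hk0 : (0 : ℝ) ≤ ((sm Nat.Prime k : ℕ) : ℝ) := Nat.cast_nonneg _
    rw [abs_le]
    constructor <;> linarith [g1.1]
  · have s4 : (∑ i ∈ Ico k (k + n + 1), Nat.nth Nat.Prime i) =
        (∑ i ∈ Ico k (k + n), Nat.nth Nat.Prime i) + Nat.nth Nat.Prime (k + n) := by omega
    rw [s4]
    push_cast
    rw [add_sub_cancel_left]
    have hm : ((Nat.nth Nat.Prime n : ℕ) : ℝ) ≤ (Nat.nth Nat.Prime (k + n) : ℕ) := by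
      exact_mod_cast (Nat.nth_monotone hinf) (by omega)
    have hp0 : (0 : ℝ) ≤ δ * ((Nat.nth Nat.Prime n : ℕ) : ℝ) := by positivity
    rw [abs_le]
    constructor <;> linarith [g1.2]

theorem five_one (hW : WinStmt)
    (hP : Tendsto (fun x : ℝ => (ct Nat.Prime x : ℝ) * Real.log x / x) atTop (𝓝 1))
    (K : ℕ → ℕ) (hK : ∀ᶠ n : ℕ in atTop, 3 * √(n : ℝ) ≤ K n) (hU : UniStart K) : ShortPNT := by
  obtain ⟨C, hC, hW⟩ := hW
  have hQ := plike_prime hP
  have hinf := hQ.infinite
  have hmain : ∀ ε : ℝ, 0 < ε → ∀ᶠ x : ℝ in atTop, |WW x - mm x| ≤ ε * mm x := by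
    intro ε hε
    set δ := min (ε / (8 * C + 4)) (1 / 20) with hδdef
    have hδ : 0 < δ := lt_min (by positivity) (by norm_num)
    have hδ1 : δ ≤ 1 / 20 := min_le_right _ _
    have hδε : (8 * C + 4) * δ ≤ ε := by
      have : δ ≤ ε / (8 * C + 4) := min_le_left _ _
      rw [le_div_iff₀ (by positivity)] at this
      linarith
    obtain ⟨η, hη, hreg⟩ := reg (δ / 8) (by positivity)
    -- eventual properties of the index
    have a1 := Metric.tendsto_nhds.1 hQ.nth_hh (δ / 8) (by positivity)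
    have a2 := Metric.tendsto_nhds.1 hQ.mm_sm (δ / 8) (by positivity)
    have a3 := hQ.sm_tendsto.eventually_gt_atTop 2
    have a4 := start_le hQ
    have a5 := nth_small hQ η hη
    have a6 := start_small hQ δ hδ
    obtain ⟨n1, hn1⟩ := eventually_atTop.1 (hU δ hδ)
    obtain ⟨n2, hn2⟩ := eventually_atTop.1 hK
    obtain ⟨n0, hn0⟩ := eventually_atTop.1
      ((((((a1.and a2).and a3).and a4).and a5).and a6).and
        (eventually_ge_atTop (2 * (n1 + n2 + 2))))
    have b1 : ∀ᶠ x : ℝ in atTop, ((sm Nat.Prime (n0 + 1) : ℕ) : ℝ) < x := eventually_gt_atTop _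
    filter_upwards [hreg, b1, hW (8 * δ) (by positivity), eventually_gt_atTop (2 : ℝ)] with
      x hreg b1 hW hx
    have hx0 : 0 < x := by linarith
    have hm := mm_pos x (by linarith)
    set h := hh x with hh_def
    have hhp : 0 < h := hh_pos x (by linarith)
    have hex : ∃ N : ℕ, x ≤ ((sm Nat.Prime N : ℕ) : ℝ) :=
      (hQ.sm_tendsto.eventually_ge_atTop _).exists
    set N := Nat.find hex with hN
    have hN1 : x ≤ ((sm Nat.Prime N : ℕ) : ℝ) := Nat.find_spec hex
    have hNn0 : n0 + 1 < N := by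
      by_contra hc
      push Not at hc
      have h1 : ((sm Nat.Prime N : ℕ) : ℝ) ≤ ((sm Nat.Prime (n0 + 1) : ℕ) : ℝ) := by
        exact_mod_cast sm_mono _ hc
      linarith
    have hN2 : ((sm Nat.Prime (N - 1) : ℕ) : ℝ) < x := by
      have := Nat.find_min hex (show N - 1 < N by omega)
      push Not at this
      exact this
    have hS : sm Nat.Prime N = sm Nat.Prime (N - 1) + Nat.nth Nat.Prime (N - 1) := by
      rw [← sm_succ]
      congr 1
      omega
    obtain ⟨⟨⟨⟨⟨⟨p1, p2⟩, p3⟩, p4⟩, p5⟩, p6⟩, p7⟩ := hn0 N (by omega)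
    obtain ⟨⟨⟨⟨⟨⟨o1, o2⟩, o3⟩, o4⟩, o5⟩, o6⟩, o7⟩ := hn0 (N - 1) (by omega)
    have hSr : ((sm Nat.Prime N : ℕ) : ℝ) =
        ((sm Nat.Prime (N - 1) : ℕ) : ℝ) + ((Nat.nth Nat.Prime (N - 1) : ℕ) : ℝ) := by
      rw [hS]; push_cast; ring
    set S := ((sm Nat.Prime N : ℕ) : ℝ) with hSdef
    set S' := ((sm Nat.Prime (N - 1) : ℕ) : ℝ) with hS'def
    set b := ((Nat.nth Nat.Prime (N - 1) : ℕ) : ℝ) with hbdef
    set c := ((Nat.nth Nat.Prime N : ℕ) : ℝ) with hcdef
    have hSx : |S - x| ≤ η * x := by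
      have : η * S' ≤ η * x := mul_le_mul_of_nonneg_left hN2.le hη.le
      rw [abs_le]
      constructor <;> linarith [mul_pos hη hx0]
    obtain ⟨r1, r2⟩ := hreg S hSx
    have hhS : 0 < hh S := hh_pos S (by linarith)
    rw [Real.dist_eq, abs_lt] at p1
    have qc1 : c < (1 + δ / 8) * hh S := by
      have := p1.2
      rw [sub_lt_iff_lt_add, div_lt_iff₀ hhS] at this
      linarith
    have qc2 : (1 - δ / 8) * hh S < c := by
      have := p1.1
      rw [lt_sub_iff_add_lt, lt_div_iff₀ hhS] at this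
      linarith
    rw [abs_le] at r1 r2
    have hcu := al1 hδ hδ1 hhp qc1 r1.2
    have hcl := al2 hδ hδ1 hhp qc2 r1.1
    -- the start k
    have hexk : ∃ k : ℕ, S - x < ((sm Nat.Prime (k + 1) : ℕ) : ℝ) := by
      have := (hQ.sm_tendsto.comp (tendsto_add_atTop_nat 1)).eventually_gt_atTop (S - x)
      exact this.exists
    set k := Nat.find hexk with hkdef
    have hk1 : S - x < ((sm Nat.Prime (k + 1) : ℕ) : ℝ) := Nat.find_spec hexk
    have hk2 : ((sm Nat.Prime k : ℕ) : ℝ) ≤ S - x := by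
      rcases Nat.eq_zero_or_pos k with h0 | h0
      · rw [h0]
        unfold sm
        simp only [range_zero, sum_empty, Nat.cast_zero]
        linarith
      · have := Nat.find_min hexk (show k - 1 < k by omega)
        push Not at this
        rwa [show k - 1 + 1 = k by omega] at this
    have hbc : b ≤ c := by
      rw [hbdef, hcdef]
      exact_mod_cast (Nat.nth_monotone hinf) (show N - 1 ≤ N by omega)
    have hk3 : (k : ℝ) ≤ 5 / 2 * √(N : ℝ) := p4 k (by linarith)
    obtain ⟨hk4, hk5⟩ := p6 k hk3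
    have hk6 : ((sm Nat.Prime (k + 1) : ℕ) : ℝ) = sm Nat.Prime k + Nat.nth Nat.Prime k := by
      rw [sm_succ]; push_cast; ring
    -- n = N - k
    have hkN : k ≤ N := by
      have h1 : (k : ℝ) ≤ N := by
        have : δ / 16 * (N : ℝ) ≤ 1 * N := mul_le_mul_of_nonneg_right (by linarith) (Nat.cast_nonneg _)
        linarith
      exact_mod_cast h1
    set n := N - k with hndef
    have hnN : k + n = N := by omega
    have hnr : (n : ℝ) = N - k := by
      rw [hndef, Nat.cast_sub hkN]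
    have hN0 : (0 : ℝ) < (N : ℝ) := by exact_mod_cast (by omega : 0 < N)
    have hnlow : 9 / 10 * (N : ℝ) ≤ n := by
      have : δ / 16 * (N : ℝ) ≤ 1 / 10 * N :=
        mul_le_mul_of_nonneg_right (by linarith) (Nat.cast_nonneg _)
      rw [hnr]
      linarith
    have hnbig : n1 + n2 + 1 ≤ n := by
      have h1 : (2 * (n1 + n2 + 2) : ℝ) ≤ N := by exact_mod_cast p7
      have h2 : ((n1 : ℝ) + n2 + 1) ≤ n := by
        have : (0 : ℝ) ≤ n1 := Nat.cast_nonneg _
        have : (0 : ℝ) ≤ n2 := Nat.cast_nonneg _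
        linarith
      exact_mod_cast h2
    have hn0' : (0 : ℝ) < n := by exact_mod_cast (by omega : 0 < n)
    have hkK : k ≤ K n := by
      have h1 := hn2 n (by omega)
      have h2 : 5 / 2 * √(N : ℝ) ≤ 3 * √(n : ℝ) := by
        have e1 : 5 / 2 * √(N : ℝ) = √(25 / 4 * N) := by
          rw [Real.sqrt_mul (by norm_num), show (25 / 4 : ℝ) = (5 / 2) ^ 2 by norm_num,
            Real.sqrt_sq (by norm_num)]
        have e2 : 3 * √(n : ℝ) = √(9 * n) := by
          rw [Real.sqrt_mul (by norm_num), show (9 : ℝ) = 3 ^ 2 by norm_num,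
            Real.sqrt_sq (by norm_num)]
        rw [e1, e2]
        apply Real.sqrt_le_sqrt
        linarith
      have h3 : (k : ℝ) ≤ K n := by linarith
      exact_mod_cast h3
    have h5 := hn1 n (by omega) k hkK
    have h6 : |((cnk k n : ℕ) : ℝ) - (n : ℝ) / 2| ≤ δ * ((n : ℝ) / 2) := by
      have e : ((cnk k n : ℕ) : ℝ) - (n : ℝ) / 2 =
          (2 * (cnk k n : ℝ) / n - 1) * ((n : ℝ) / 2) := by field_simp
      rw [e, abs_mul, abs_of_pos (show 0 < (n : ℝ) / 2 by positivity)]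
      exact mul_le_mul_of_nonneg_right h5 (by positivity)
    -- the tile
    have s1 := sum_Ico_sm k (k + n) (by omega)
    have s2 := sum_Ico_sm k (k + n + 1) (by omega)
    have s3 := sm_succ Nat.Prime (k + n)
    obtain ⟨A, hA⟩ : ∃ A, A = ∑ i ∈ Ico k (k + n), Nat.nth Nat.Prime i := ⟨_, rfl⟩
    obtain ⟨B, hB⟩ : ∃ B, B = ∑ i ∈ Ico k (k + n + 1), Nat.nth Nat.Prime i := ⟨_, rfl⟩
    have hcnk : cnk k n = ((Ioo A B).filter Nat.Prime).card := by
      unfold cnk; rw [hA, hB]
    rw [← hA] at s1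
    rw [← hB] at s2
    have s4 : B = A + Nat.nth Nat.Prime N := by
      rw [← hnN]
      omega
    rw [hnN] at s1
    have s1' : ((sm Nat.Prime k : ℕ) : ℝ) + (A : ℝ) = S := by
      rw [hSdef]; exact_mod_cast s1
    have s4' : (B : ℝ) = A + c := by
      rw [s4, hcdef]; push_cast; ring
    have hAB : A < B := by
      have : 0 < Nat.nth Nat.Prime N := lt_of_lt_of_le (Nat.succ_pos N) (hQ.nth_ge N)
      omega
    have hδh : 0 < δ * h := mul_pos hδ hhp
    have hk7 : ((Nat.nth Nat.Prime k : ℕ) : ℝ) ≤ 2 * (δ * h) := by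
      have e1 : hh S ≤ 2 * h := by
        have : δ / 8 * h ≤ 1 * h := mul_le_mul_of_nonneg_right (by linarith) hhp.le
        linarith [r1.2]
      have e2 : δ * hh S ≤ δ * (2 * h) := mul_le_mul_of_nonneg_left e1 hδ.le
      linarith
    have h7 := hW A B hAB (by
      rw [abs_le]
      constructor <;> linarith) (by
      rw [s4', abs_le]
      constructor <;> linarith)
    -- the index
    rw [Real.dist_eq, abs_lt] at p2
    have t1 : mm S < (1 + δ / 8) * ((N : ℝ) / 2) := by
      have := p2.2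
      rw [sub_lt_iff_lt_add, div_lt_iff₀ (by positivity)] at this
      linarith
    have t2 : (1 - δ / 8) * ((N : ℝ) / 2) < mm S := by
      have := p2.1
      rw [lt_sub_iff_add_lt, lt_div_iff₀ (by positivity)] at this
      linarith
    obtain ⟨t3, t4⟩ := al3 hδ hδ1 hm (by positivity) t1 t2 r2.1 r2.2
    have hc : |(n : ℝ) / 2 - mm x| ≤ δ * mm x := by
      have hk0 : (0 : ℝ) ≤ k := Nat.cast_nonneg _
      have e1 : (N : ℝ) ≤ 4 * mm x := by
        have : δ / 2 * mm x ≤ 1 * mm x := mul_le_mul_of_nonneg_right (by linarith) hm.le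
        linarith
      have e2 : δ / 16 * (N : ℝ) ≤ δ / 16 * (4 * mm x) :=
        mul_le_mul_of_nonneg_left e1 (by linarith)
      have e3 : 0 < δ * mm x := mul_pos hδ hm
      rw [hnr, abs_le]
      constructor <;> linarith
    have h10 : |((cnk k n : ℕ) : ℝ) - WW x| ≤ (C + 1 / 8) * (8 * δ) * mm x := by
      have e3 : 0 < δ * mm x := mul_pos hδ hm
      rw [hcnk]
      rw [abs_le] at h7 ⊢
      constructor <;> linarith
    exact last hδ hm hc h6 h10 (by linarith) (by linarith)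
  have : Tendsto (fun x : ℝ => WW x / mm x) atTop (𝓝 1) := by
    rw [Metric.tendsto_nhds]
    intro ε hε
    filter_upwards [hmain (ε / 2) (by positivity), eventually_gt_atTop (2 : ℝ)] with x h1 h2
    have hm := mm_pos x (by linarith)
    have e : WW x / mm x - 1 = (WW x - mm x) / mm x := by field_simp
    rw [Real.dist_eq, e, abs_div, abs_of_pos hm, div_lt_iff₀ hm]
    nlinarith
  exact this

end Pool.Agent.Lib.MP_3ef1ab_nt
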