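import Pool.Agent.Lib.MP_3ef1ab_nt.E.Grow
import Pool.Agent.Lib.MP_3ef1ab_nt.E.Align

/-! MP_3ef1ab_nt, part E, module Four: deletion of one prime, uniformly. -/

set_option autoImplicit false

namespace Pool.Agent.Lib.MP_3ef1ab_nt

open Finset Filter Topology Asymptotics
open scoped Classical

/-- the count of `Q` in a tile against the count of primes, when `Q` is the set of primes
different from `q` -/
theorem card_del (q : ℕ) (s : Finset ℕ) :
    |((s.filter (fun p => p.Prime ∧ p ≠ q)).card : ℝ) - (s.filter Nat.Prime).card| ≤ 1 := by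
  have h1 : (s.filter (fun p => p.Prime ∧ p ≠ q)).card ≤ (s.filter Nat.Prime).card := by
    apply card_le_card
    intro m hm
    simp only [mem_filter] at hm ⊢
    exact ⟨hm.1, hm.2.1⟩
  have h2 : (s.filter Nat.Prime).card ≤ (s.filter (fun p => p.Prime ∧ p ≠ q)).card + 1 := by
    have : s.filter Nat.Prime ⊆ insert q (s.filter (fun p => p.Prime ∧ p ≠ q)) := by
      intro m hm
      simp only [mem_filter, mem_insert] at hm ⊢
      by_cases h : m = q
      · left; exact h
      · right; exact ⟨hm.1, hm.2, h⟩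
    exact (card_le_card this).trans (card_insert_le _ _)
  rw [abs_le]
  have h1' : ((s.filter (fun p => p.Prime ∧ p ≠ q)).card : ℝ) ≤ (s.filter Nat.Prime).card := by
    exact_mod_cast h1
  have h2' : ((s.filter Nat.Prime).card : ℝ) ≤ (s.filter (fun p => p.Prime ∧ p ≠ q)).card + 1 := by
    exact_mod_cast h2
  constructor <;> linarith

theorem one_four (hW : WinStmt)
    (hP : Tendsto (fun x : ℝ => (ct Nat.Prime x : ℝ) * Real.log x / x) atTop (𝓝 1))
    (hS : ShortPNT) : UniDel := by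
  intro ε hε
  have hQ := plike_prime hP
  have hinf := hQ.infinite
  obtain ⟨δ, hδ, h1⟩ := tile2 hW hP hS (ε / 2) (by positivity)
  obtain ⟨κ, hκ, hg⟩ := growth hQ δ hδ
  have hk : ∀ᶠ n : ℕ in atTop, 1 / κ ≤ (n : ℝ) := tendsto_natCast_atTop_atTop.eventually_ge_atTop _
  have he : ∀ᶠ n : ℕ in atTop, 4 / ε ≤ (n : ℝ) := tendsto_natCast_atTop_atTop.eventually_ge_atTop _
  filter_upwards [h1, hg, hk, he, nth_small hQ δ hδ, eventually_ge_atTop 1] with
    n h1 hg hk he hsm hn
  intro q hq
  have hn0 : (0 : ℝ) < n := by exact_mod_cast hn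
  obtain ⟨Q, hQe⟩ : ∃ Q : ℕ → Prop, Q = fun p => p.Prime ∧ p ≠ q := ⟨_, rfl⟩
  have hQdef : ∀ p, Q p ↔ (p.Prime ∧ p ≠ q) := fun p => by rw [hQe]
  -- the tile
  have key : |((sm Q n : ℕ) : ℝ) - sm Nat.Prime n| ≤ δ * sm Nat.Prime n ∧
      |(((sm Q (n + 1) : ℕ) : ℝ) - sm Q n) - Nat.nth Nat.Prime n| ≤ δ * Nat.nth Nat.Prime n := by
    rcases le_or_gt q (Nat.nth Nat.Prime n) with hc | hc
    · have hlt : q < Nat.nth Nat.Prime (n + 1) :=
        lt_of_le_of_lt hc ((Nat.nth_strictMono hinf) (Nat.lt_succ_self n))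
      obtain ⟨d1, d2, _⟩ := del Nat.Prime hinf q hq (n + 1) hlt
      rw [← hQe, Nat.add_sub_cancel] at d1 d2
      have hS1 := sm_succ Nat.Prime n
      have hS2 := sm_succ Q n
      have hmono : Nat.nth Nat.Prime n ≤ Nat.nth Nat.Prime (n + 1) :=
        (Nat.nth_monotone hinf) (Nat.le_succ n)
      have hgr := (hg.1 (n + 1) (by omega) (by
        push_cast
        rw [div_le_iff₀ hκ] at hk
        linarith)).2
      have e1 : ((sm Q n : ℕ) : ℝ) + q = sm Nat.Prime n + Nat.nth Nat.Prime n := by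
        have : sm Q n + q = sm Nat.Prime n + Nat.nth Nat.Prime n := by omega
        exact_mod_cast this
      have hc' : (q : ℝ) ≤ Nat.nth Nat.Prime n := by exact_mod_cast hc
      have hq0 : (0 : ℝ) ≤ q := Nat.cast_nonneg q
      have hS0 : (0 : ℝ) ≤ δ * sm Nat.Prime n := by positivity
      constructor
      · rw [abs_le]
        constructor <;> linarith
      · rw [hS2, d1]
        push_cast
        have hm' : ((Nat.nth Nat.Prime n : ℕ) : ℝ) ≤ Nat.nth Nat.Prime (n + 1) := by
          exact_mod_cast hmono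
        rw [abs_le]
        constructor <;> nlinarith
    · have hag : ∀ m ≤ Nat.nth Nat.Prime n, (Nat.Prime m ↔ Q m) := by
        intro m hm
        rw [hQdef]
        constructor
        · intro h; exact ⟨h, by omega⟩
        · intro h; exact h.1
      have e1 := sm_agree Nat.Prime Q hinf n hag n (by omega)
      have e2 := sm_agree Nat.Prime Q hinf n hag (n + 1) (by omega)
      have hS1 := sm_succ Nat.Prime n
      rw [e1, e2, hS1]
      constructor
      · rw [sub_self, abs_zero]; positivity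
      · push_cast
        rw [add_sub_cancel_left, sub_self, abs_zero]; positivity
  have h2 := h1 (sm Q n) (sm Q (n + 1)) key.1 key.2
  have h3 := card_del q (Ioo (sm Q n) (sm Q (n + 1)))
  rw [← hQe]
  have h4 : ((cn Q n : ℕ) : ℝ) =
      (((Ioo (sm Q n) (sm Q (n + 1))).filter (fun p => p.Prime ∧ p ≠ q)).card : ℝ) := by
    unfold cn
    norm_cast
    congr 1
    ext m
    simp only [mem_filter, hQdef]
  rw [← h4] at h3
  have h5 : |2 * ((cn Q n : ℕ) : ℝ) / n -
      2 * (((Ioo (sm Q n) (sm Q (n + 1))).filter Nat.Prime).card : ℝ) / n| ≤ ε / 2 := by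
    rw [← sub_div, ← mul_sub, abs_div, abs_of_pos hn0, div_le_iff₀ hn0, abs_mul, abs_two]
    rw [div_le_iff₀ hε] at he
    linarith
  rw [abs_le] at h2 h5 ⊢
  constructor <;> linarith

/-- the last step: from the tile to the window -/
theorem last {C δ ε m t c W : ℝ} (hδ : 0 < δ) (hm : 0 < m)
    (h1 : |t - m| ≤ δ * m) (h2 : |c - t| ≤ δ * t) (h3 : |c - W| ≤ C * (8 * δ) * m)
    (hδ1 : δ ≤ 1) (hε : (8 * C + 3) * δ ≤ ε) : |W - m| ≤ ε * m := by
  rw [abs_le] at *
  have e1 : δ * t ≤ δ * (2 * m) := by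
    apply mul_le_mul_of_nonneg_left _ hδ.le
    nlinarith
  have e2 := mul_le_mul_of_nonneg_right hε hm.le
  constructor <;> nlinarith

theorem four_one (hW : WinStmt)
    (hP : Tendsto (fun x : ℝ => (ct Nat.Prime x : ℝ) * Real.log x / x) atTop (𝓝 1))
    (hU : UniDel) : ShortPNT := by
  obtain ⟨C, hC, hW⟩ := hW
  have hmain : ∀ ε : ℝ, 0 < ε → ∀ᶠ x : ℝ in atTop, |WW x - mm x| ≤ ε * mm x := by
    intro ε hε
    set δ := min (ε / (8 * C + 4)) (1 / 20) with hδdef
    have hδ : 0 < δ := lt_min (by positivity) (by norm_num)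
    have hδ1 : δ ≤ 1 / 20 := min_le_right _ _
    have hδε : (8 * C + 4) * δ ≤ ε := by
      have : δ ≤ ε / (8 * C + 4) := min_le_left _ _
      rw [le_div_iff₀ (by positivity)] at this
      linarith
    obtain ⟨n1, hn1⟩ := eventually_atTop.1 (hU δ hδ)
    have c1 : ∀ᶠ x : ℝ in atTop, 2 * ((n1 : ℝ) + 1) ≤ mm x := mm_tendsto.eventually_ge_atTop _
    have c2 : ∀ᶠ x : ℝ in atTop, 1 ≤ δ * mm x :=
      (mm_tendsto.const_mul_atTop hδ).eventually_ge_atTop _
    filter_upwards [align hP ∅ δ hδ hδ1, hW (8 * δ) (by positivity), c1, c2,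
      eventually_gt_atTop (2 : ℝ)] with x h1 h2 h3 h3' h4
    obtain ⟨q, hq1, hq2, hq3, n, ha, hb, hc, hd⟩ := h1
    have hm := mm_pos x (by linarith)
    have hh0 := hh_pos x (by linarith)
    obtain ⟨Q, hQe⟩ : ∃ Q : ℕ → Prop, Q = fun p => P0 ∅ p ∧ p ≠ q := ⟨_, rfl⟩
    have hQdef : ∀ p, Q p ↔ (p.Prime ∧ p ≠ q) := fun p => by rw [hQe]; simp [P0]
    have hQe2 : Q = fun p => p.Prime ∧ p ≠ q := by
      funext p
      exact propext (hQdef p)
    rw [← hQe] at ha hb hd
    -- n is large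
    have hnn : n1 + 1 ≤ n := by
      have h5 : (n1 : ℝ) + 1 ≤ n := by
        rw [abs_le] at hc
        have : δ * mm x ≤ 1 / 20 * mm x := mul_le_mul_of_nonneg_right hδ1 hm.le
        linarith
      exact_mod_cast h5
    have hn0 : (0 : ℝ) < n := by exact_mod_cast (by omega : 0 < n)
    have h5 := hn1 n (by omega) q hq1
    rw [← hQe2] at h5
    have h6 : |((cn Q n : ℕ) : ℝ) - (n : ℝ) / 2| ≤ δ * ((n : ℝ) / 2) := by
      have e : ((cn Q n : ℕ) : ℝ) - (n : ℝ) / 2 =
          (2 * (cn Q n : ℝ) / n - 1) * ((n : ℝ) / 2) := by field_simp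
      rw [e, abs_mul, abs_of_pos (show 0 < (n : ℝ) / 2 by positivity)]
      exact mul_le_mul_of_nonneg_right h5 (by positivity)
    -- the count of Q in the tile equals the count of primes
    have hS2 := sm_succ Q n
    have hS2' : ((sm Q (n + 1) : ℕ) : ℝ) = sm Q n + Nat.nth Q n := by
      rw [hS2]; push_cast; ring
    have hab : sm Q n < sm Q (n + 1) := by
      have h7 : (0 : ℝ) < Nat.nth Q n := by
        rw [abs_le] at hb
        have : δ * hh x ≤ 1 / 20 * hh x := mul_le_mul_of_nonneg_right hδ1 hh0.le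
        linarith
      have h8 : 0 < Nat.nth Q n := by exact_mod_cast h7
      omega
    have h7 := h2 (sm Q n) (sm Q (n + 1)) hab (ha.trans (by
      apply mul_le_mul_of_nonneg_right _ hh0.le
      linarith)) (by
      rw [hS2']
      rw [abs_le] at ha hb ⊢
      constructor <;> nlinarith)
    have h8 := card_del q (Ioo (sm Q n) (sm Q (n + 1)))
    have h9 : ((cn Q n : ℕ) : ℝ) =
        (((Ioo (sm Q n) (sm Q (n + 1))).filter (fun p => p.Prime ∧ p ≠ q)).card : ℝ) := by
      unfold cn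
      norm_cast
      congr 1
      ext m
      simp only [mem_filter, hQdef]
    rw [← h9] at h8
    have h10 : |((cn Q n : ℕ) : ℝ) - WW x| ≤ (C + 1 / 8) * (8 * δ) * mm x := by
      rw [abs_le] at h7 h8 ⊢
      constructor <;> linarith
    exact last hδ hm hc h6 h10 (by linarith) (by linarith)
  have : Tendsto (fun x : ℝ => WW x / mm x) atTop (𝓝 1) := by
    rw [Metric.tendsto_nhds]
    intro ε hε
    filter_upwards [hmain (ε / 2) (by positivity), eventually_gt_atTop (2 : ℝ)] with x h1 h2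
    have hm := mm_pos x (by linarith)
    have e : WW x / mm x - 1 = (WW x - mm x) / mm x := by field_simp
    rw [Real.dist_eq, e, abs_div, abs_of_pos hm, div_lt_iff₀ hm]
    nlinarith
  exact this

end Pool.Agent.Lib.MP_3ef1ab_nt
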