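import Pool.Agent.Lib.MP_3ef1ab_nt.E.T2

/-! MP_3ef1ab_nt, part E, module Grow: regular growth of the elements and of the sums. -/

set_option autoImplicit false

namespace Pool.Agent.Lib.MP_3ef1ab_nt

open Finset Filter Topology Asymptotics
open scoped Classical

theorem gr1 {κ δ A B a b : ℝ} (hκ : 0 < κ) (hκ1 : κ ≤ 1 / 16) (hκδ : 16 * κ ≤ δ) (hB : 0 < B)
    (hAB : A ≤ (1 + κ) ^ 3 * B) (ha : a ≤ (1 + κ) * A) (hb : (1 - κ) * B ≤ b) :
    a ≤ (1 + δ) * b := by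
  have h1 : a ≤ (1 + κ) * ((1 + κ) ^ 3 * B) :=
    ha.trans (mul_le_mul_of_nonneg_left hAB (by linarith))
  have h2 : (1 + κ) * (1 + κ) ^ 3 ≤ (1 + 16 * κ) * (1 - κ) := by
    have e : (1 + κ) * (1 + κ) ^ 3 = 1 + 4 * κ + 6 * κ ^ 2 + 4 * κ ^ 3 + κ ^ 4 := by ring
    rw [e]
    have e2 : κ ^ 2 ≤ κ * (1 / 16) := by nlinarith
    have e3 : κ ^ 3 ≤ κ * (1 / 16) := by
      have : κ ^ 3 = κ ^ 2 * κ := by ring
      nlinarith [sq_nonneg κ]
    have e4 : κ ^ 4 ≤ κ * (1 / 16) := by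
      have h5 : κ ^ 4 = κ ^ 3 * κ := by ring
      have h6 : 0 ≤ κ ^ 3 := by positivity
      nlinarith
    nlinarith
  have h3 := mul_le_mul_of_nonneg_right h2 hB.le
  have h4 : (1 + 16 * κ) * ((1 - κ) * B) ≤ (1 + 16 * κ) * b :=
    mul_le_mul_of_nonneg_left hb (by linarith)
  have h5 : 0 ≤ b := le_trans (mul_nonneg (by linarith) hB.le) hb
  have h6 : (1 + 16 * κ) * b ≤ (1 + δ) * b := mul_le_mul_of_nonneg_right (by linarith) h5
  linarith

theorem growth {Q : ℕ → Prop} (hQ : PLike Q) (δ : ℝ) (hδ : 0 < δ) : ∃ κ : ℝ, 0 < κ ∧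
    ∀ᶠ n : ℕ in atTop,
      (∀ m : ℕ, n ≤ m → (m : ℝ) ≤ (1 + κ) * n →
        ((sm Q m : ℕ) : ℝ) ≤ (1 + δ) * sm Q n ∧
        ((Nat.nth Q m : ℕ) : ℝ) ≤ (1 + δ) * Nat.nth Q n) ∧
      (∀ k : ℕ, (k : ℝ) ≤ κ * n → ((sm Q k : ℕ) : ℝ) ≤ δ * sm Q n) := by
  set κ := min (δ / 16) (1 / 16) with hκdef
  have hκ : 0 < κ := lt_min (by positivity) (by norm_num)
  have hκ1 : κ ≤ 1 / 16 := min_le_right _ _
  have hκδ : 16 * κ ≤ δ := by
    have : κ ≤ δ / 16 := min_le_left _ _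
    linarith
  refine ⟨κ, hκ, ?_⟩
  obtain ⟨n1, hn1⟩ := eventually_atTop.1 ((Metric.tendsto_nhds.1 hQ.nth3 κ hκ).and
    (Metric.tendsto_nhds.1 hQ.sum_asymp κ hκ))
  have hinf := hQ.infinite
  filter_upwards [eventually_ge_atTop (max n1 3)] with n hn
  have hn1' : n1 ≤ n := (le_max_left _ _).trans hn
  have hn3 : 3 ≤ n := (le_max_right _ _).trans hn
  have base : ∀ m : ℕ, n ≤ m → ((sm Q m : ℕ) : ℝ) ≤ (1 + κ) * FF m ∧
      (1 - κ) * FF m ≤ sm Q m ∧ ((Nat.nth Q m : ℕ) : ℝ) ≤ (1 + κ) * (m * Real.log m) ∧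
      (1 - κ) * (m * Real.log m) ≤ Nat.nth Q m := by
    intro m hm
    obtain ⟨h1, h2⟩ := hn1 m (by omega)
    have hm3 : (3 : ℝ) ≤ m := by exact_mod_cast (by omega : 3 ≤ m)
    have hL : 0 < Real.log m := Real.log_pos (by linarith)
    have hF : 0 < FF m := by unfold FF; positivity
    have hG : 0 < (m : ℝ) * Real.log m := by positivity
    rw [Real.dist_eq, abs_lt] at h1 h2
    obtain ⟨h11, h12⟩ := h1
    obtain ⟨h21, h22⟩ := h2
    rw [sub_lt_iff_lt_add, div_lt_iff₀ hG] at h12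
    rw [lt_sub_iff_add_lt, lt_div_iff₀ hG] at h11
    rw [sub_lt_iff_lt_add, div_lt_iff₀ hF] at h22
    rw [lt_sub_iff_add_lt, lt_div_iff₀ hF] at h21
    refine ⟨?_, ?_, ?_, ?_⟩ <;> linarith
  have hn3' : (3 : ℝ) ≤ n := by exact_mod_cast hn3
  have hn0 : (0 : ℝ) < n := by linarith
  have hL1 : 1 ≤ Real.log n := by
    rw [Real.le_log_iff_exp_le (by linarith)]
    have := Real.exp_one_lt_d9
    linarith
  have hL0 : 0 < Real.log n := by linarith
  obtain ⟨bn1, bn2, bn3, bn4⟩ := base n le_rfl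
  constructor
  · intro m hm hmle
    obtain ⟨bm1, bm2, bm3, bm4⟩ := base m hm
    have hm0 : (0 : ℝ) < m := lt_of_lt_of_le hn0 (by exact_mod_cast hm)
    have hlogm : Real.log m ≤ (1 + κ) * Real.log n := by
      have h1 : Real.log m ≤ Real.log ((1 + κ) * n) := Real.log_le_log hm0 hmle
      rw [Real.log_mul (by linarith) hn0.ne'] at h1
      have h2 : Real.log (1 + κ) ≤ κ := by
        have := Real.log_le_sub_one_of_pos (show 0 < 1 + κ by linarith)
        linarith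
      have h3 : κ * 1 ≤ κ * Real.log n := mul_le_mul_of_nonneg_left hL1 hκ.le
      linarith
    have hlogm0 : 0 ≤ Real.log m := Real.log_natCast_nonneg m
    constructor
    · apply gr1 hκ hκ1 hκδ (B := FF n) (A := FF m) (by unfold FF; positivity) _ bm1 bn2
      unfold FF
      have h1 : (m : ℝ) ^ 2 ≤ ((1 + κ) * n) ^ 2 := pow_le_pow_left₀ hm0.le hmle 2
      have h2 : (m : ℝ) ^ 2 * Real.log m ≤ ((1 + κ) * n) ^ 2 * ((1 + κ) * Real.log n) :=
        mul_le_mul h1 hlogm hlogm0 (by positivity)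
      calc (m : ℝ) ^ 2 * Real.log m / 2 ≤ ((1 + κ) * n) ^ 2 * ((1 + κ) * Real.log n) / 2 := by
            linarith
        _ = (1 + κ) ^ 3 * ((n : ℝ) ^ 2 * Real.log n / 2) := by ring
    · apply gr1 hκ hκ1 hκδ (B := (n : ℝ) * Real.log n) (A := (m : ℝ) * Real.log m)
        (by positivity) _ bm3 bn4
      have h2 : (m : ℝ) * Real.log m ≤ ((1 + κ) * n) * ((1 + κ) * Real.log n) :=
        mul_le_mul hmle hlogm hlogm0 (by positivity)
      have h3 : ((1 + κ) * n) * ((1 + κ) * Real.log n) = (1 + κ) ^ 2 * (n * Real.log n) := by ring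
      have h4 : (1 + κ) ^ 2 ≤ (1 + κ) ^ 3 := pow_le_pow_right₀ (by linarith) (by norm_num)
      have h5 := mul_le_mul_of_nonneg_right h4 (show 0 ≤ (n : ℝ) * Real.log n by positivity)
      linarith
  · intro k hk
    have hkn : k ≤ n := by
      have : (k : ℝ) ≤ n := by nlinarith
      exact_mod_cast this
    have h1 : ((sm Q k : ℕ) : ℝ) ≤ k * Nat.nth Q n := by
      unfold sm
      push_cast
      calc ∑ i ∈ range k, ((Nat.nth Q i : ℕ) : ℝ) ≤ ∑ i ∈ range k, ((Nat.nth Q n : ℕ) : ℝ) := by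
            apply sum_le_sum
            intro i hi
            rw [mem_range] at hi
            exact_mod_cast (Nat.nth_monotone hinf) (show i ≤ n by omega)
        _ = k * Nat.nth Q n := by rw [sum_const, card_range, nsmul_eq_mul]
    have h2 : (k : ℝ) * Nat.nth Q n ≤ (κ * n) * ((1 + κ) * (n * Real.log n)) :=
      mul_le_mul hk bn3 (by positivity) (by positivity)
    have h3 : (κ * n) * ((1 + κ) * (n * Real.log n)) ≤ 4 * κ * FF n := by
      have : (κ * n) * ((1 + κ) * (n * Real.log n)) = 2 * (1 + κ) * κ * FF n := by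
        unfold FF; ring
      rw [this]
      have hF : 0 < κ * FF n := by unfold FF; positivity
      nlinarith
    have h4 : 4 * κ * FF n ≤ 8 * κ * sm Q n := by
      have : FF n ≤ 2 * sm Q n := by
        have hF : 0 < FF n := by unfold FF; positivity
        nlinarith
      have := mul_le_mul_of_nonneg_left this (show 0 ≤ 4 * κ by linarith)
      linarith
    have h5 : 8 * κ * sm Q n ≤ δ * sm Q n :=
      mul_le_mul_of_nonneg_right (by linarith) (Nat.cast_nonneg _)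
    linarith

/-- the elements are small compared with the sums -/
theorem nth_small {Q : ℕ → Prop} (hQ : PLike Q) (δ : ℝ) (hδ : 0 < δ) :
    ∀ᶠ n : ℕ in atTop, ((Nat.nth Q n : ℕ) : ℝ) ≤ δ * sm Q n := by
  obtain ⟨κ, hκ, h⟩ := growth hQ δ hδ
  have h1 : ∀ᶠ n : ℕ in atTop, 1 / κ ≤ (n : ℝ) := tendsto_natCast_atTop_atTop.eventually_ge_atTop _
  filter_upwards [h, h1] with n hn h1
  have h2 := (hn.1 (n + 1) (by omega) (by
    push_cast
    rw [div_le_iff₀ hκ] at h1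
    linarith)).1
  rw [sm_succ] at h2
  push_cast at h2
  linarith

end Pool.Agent.Lib.MP_3ef1ab_nt
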