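import Pool.Agent.Lib.MP_3ef1ab_nt.E.Four

/-! MP_3ef1ab_nt, part E, module Rec: deletion of sparse sets of primes. -/

set_option autoImplicit false

namespace Pool.Agent.Lib.MP_3ef1ab_nt

open Finset Filter Topology Asymptotics
open scoped Classical

theorem mm_mono {x y : ℝ} (hx : 3 ≤ x) (hxy : x ≤ y) : mm x ≤ mm y := by
  unfold mm
  apply Real.sqrt_le_sqrt
  have he := Real.exp_one_lt_d9
  have h1 := Real.log_div_self_antitoneOn (show Real.exp 1 ≤ x by linarith)
    (show Real.exp 1 ≤ y by linarith) hxy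
  have hLx : 0 < Real.log x := Real.log_pos (by linarith)
  have hLy : 0 < Real.log y := Real.log_pos (by linarith)
  simp only at h1
  rw [div_le_div_iff₀ (by linarith) (by linarith)] at h1
  rw [div_le_div_iff₀ hLx hLy]
  linarith

theorem two_three (g : ℕ → ℕ)
    (hg : Tendsto (fun n : ℕ => (g n : ℝ) / √((n : ℝ) / Real.log n)) atTop (𝓝 0))
    (h : AllNear) : SparseDel g := by
  intro D hD hct
  apply h
  refine ⟨fun h0 => Nat.not_prime_zero h0.1, ?_⟩
  have h1 : Tendsto (fun x : ℝ => (g ⌊x⌋₊ : ℝ) / mm (⌊x⌋₊ : ℝ)) atTop (𝓝 0) :=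
    hg.comp tendsto_nat_floor_atTop
  refine tendsto_of_tendsto_of_tendsto_of_le_of_le' tendsto_const_nhds h1 ?_ ?_
  · filter_upwards with x
    positivity
  · filter_upwards [eventually_ge_atTop (4 : ℝ)] with x hx
    have hf : (3 : ℝ) ≤ (⌊x⌋₊ : ℝ) := by
      have := Nat.lt_floor_add_one x
      linarith
    have hfl := Nat.floor_le (show 0 ≤ x by linarith)
    have hm := mm_pos (⌊x⌋₊ : ℝ) (by linarith)
    have hmx : mm (⌊x⌋₊ : ℝ) ≤ mm x := mm_mono hf hfl
    have h2 : ct (fun m => ¬ ((m.Prime ∧ ¬ D m) ↔ m.Prime)) x ≤ g ⌊x⌋₊ := by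
      refine le_trans ?_ (hct ⌊x⌋₊)
      rw [← ct_floor]
      unfold ct
      apply card_le_card
      intro m hm
      simp only [mem_filter] at hm ⊢
      refine ⟨hm.1, ?_⟩
      by_contra hD'
      exact hm.2 ⟨fun h => h.1, fun h => ⟨h, hD'⟩⟩
    have h2' : (ct (fun m => ¬ ((m.Prime ∧ ¬ D m) ↔ m.Prime)) x : ℝ) ≤ g ⌊x⌋₊ := by
      exact_mod_cast h2
    change (ct (fun m => ¬ ((m.Prime ∧ ¬ D m) ↔ m.Prime)) x : ℝ) / mm x ≤ _
    calc (ct (fun m => ¬ ((m.Prime ∧ ¬ D m) ↔ m.Prime)) x : ℝ) / mm x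
        ≤ (g ⌊x⌋₊ : ℝ) / mm x := div_le_div_of_nonneg_right h2' (by linarith)
      _ ≤ (g ⌊x⌋₊ : ℝ) / mm (⌊x⌋₊ : ℝ) := div_le_div_of_nonneg_left (by positivity) hm hmx

/-- the count of primes in `s` outside a finite set -/
theorem card_del_fin (D0 : Finset ℕ) (q : ℕ) (s : Finset ℕ) :
    |((s.filter (fun p => P0 D0 p ∧ p ≠ q)).card : ℝ) - (s.filter Nat.Prime).card| ≤
      D0.card + 1 := by
  have h1 : (s.filter (fun p => P0 D0 p ∧ p ≠ q)).card ≤ (s.filter Nat.Prime).card := by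
    apply card_le_card
    intro m hm
    simp only [mem_filter, P0] at hm ⊢
    exact ⟨hm.1, hm.2.1.1⟩
  have h2 : (s.filter Nat.Prime).card ≤ (s.filter (fun p => P0 D0 p ∧ p ≠ q)).card +
      (D0.card + 1) := by
    have : s.filter Nat.Prime ⊆ (s.filter (fun p => P0 D0 p ∧ p ≠ q)) ∪ insert q D0 := by
      intro m hm
      simp only [mem_filter, mem_insert, mem_union, P0] at hm ⊢
      by_cases h : m = q
      · right; left; exact h
      · by_cases h' : m ∈ D0
        · right; right; exact h'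
        · left; exact ⟨hm.1, ⟨hm.2, h'⟩, h⟩
    refine (card_le_card this).trans ((card_union_le _ _).trans ?_)
    have := card_insert_le q D0
    omega
  rw [abs_le]
  have h1' : ((s.filter (fun p => P0 D0 p ∧ p ≠ q)).card : ℝ) ≤ (s.filter Nat.Prime).card := by
    exact_mod_cast h1
  have h2' : ((s.filter Nat.Prime).card : ℝ) ≤ (s.filter (fun p => P0 D0 p ∧ p ≠ q)).card +
      (D0.card + 1) := by exact_mod_cast h2
  have h3 : (0 : ℝ) ≤ D0.card := Nat.cast_nonneg _
  constructor <;> linarith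

/-- one step of the construction -/
theorem step (hW : WinStmt)
    (hP : Tendsto (fun x : ℝ => (ct Nat.Prime x : ℝ) * Real.log x / x) atTop (𝓝 1))
    (ε : ℝ) (hε : 0 < ε) (hbad : ∃ᶠ x : ℝ in atTop, ε * mm x < |WW x - mm x|) :
    ∃ δ : ℝ, 0 < δ ∧ ∀ (D0 : Finset ℕ) (B : ℕ), ∃ q n L : ℕ, q.Prime ∧ q ∉ D0 ∧ B ≤ q ∧ B ≤ n ∧
      ∀ D : ℕ → Prop, (∀ m ≤ L, (D m ↔ (m ∈ D0 ∨ m = q))) →
        δ < |2 * (cn (fun p => p.Prime ∧ ¬ D p) n : ℝ) / n - 1| := by
  obtain ⟨C, hC, hW⟩ := hW
  set δ := min (ε / (8 * C + 4)) (1 / 20) with hδdef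
  have hδ : 0 < δ := lt_min (by positivity) (by norm_num)
  have hδ1 : δ ≤ 1 / 20 := min_le_right _ _
  have hδε : (8 * C + 4) * δ ≤ ε := by
    have : δ ≤ ε / (8 * C + 4) := min_le_left _ _
    rw [le_div_iff₀ (by positivity)] at this
    linarith
  refine ⟨δ, hδ, fun D0 B => ?_⟩
  have c1 : ∀ᶠ x : ℝ in atTop, 2 * ((B : ℝ) + 1) ≤ mm x := mm_tendsto.eventually_ge_atTop _
  have c2 : ∀ᶠ x : ℝ in atTop, (D0.card : ℝ) + 1 ≤ δ * mm x :=
    (mm_tendsto.const_mul_atTop hδ).eventually_ge_atTop _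
  have c3 : ∀ᶠ x : ℝ in atTop, (B : ℝ) ≤ δ * hh x :=
    (hh_tendsto.const_mul_atTop hδ).eventually_ge_atTop _
  obtain ⟨x, hx, h1, h2, h3, h3', h3'', h4⟩ := (hbad.and_eventually
    ((align hP D0 δ hδ hδ1).and ((hW (8 * δ) (by positivity)).and (c1.and (c2.and
      (c3.and (eventually_gt_atTop (2 : ℝ)))))))).exists
  obtain ⟨q, hq1, hq2, hq3, n, ha, hb, hc, hd⟩ := h1
  have hm := mm_pos x (by linarith)
  have hh0 := hh_pos x (by linarith)
  obtain ⟨Q, hQe⟩ : ∃ Q : ℕ → Prop, Q = fun p => P0 D0 p ∧ p ≠ q := ⟨_, rfl⟩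
  have hQdef : ∀ p, Q p ↔ ((p.Prime ∧ p ∉ D0) ∧ p ≠ q) := fun p => by rw [hQe]; rfl
  rw [← hQe] at ha hb hd
  have hQinf : (Set.ofPred Q).Infinite := by
    have h5 := ((near_P0 D0).plike hP).infinite
    have h6 : (Set.ofPred (P0 D0) \ {q}).Infinite := h5.sdiff (Set.finite_singleton q)
    refine h6.mono ?_
    intro p hp
    rw [hQe]
    exact ⟨hp.1, fun h => hp.2 h⟩
  refine ⟨q, n, sm Q (n + 1), hq1, hq2, ?_, ?_, ?_⟩
  · have : (B : ℝ) ≤ q := by linarith
    exact_mod_cast this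
  · have h5 : (B : ℝ) + 1 ≤ n := by
      rw [abs_le] at hc
      have : δ * mm x ≤ 1 / 20 * mm x := mul_le_mul_of_nonneg_right hδ1 hm.le
      linarith
    have h6 : (B : ℝ) ≤ n := by linarith
    exact_mod_cast h6
  · intro D hD
    obtain ⟨Q', hQ'e⟩ : ∃ Q' : ℕ → Prop, Q' = fun p => p.Prime ∧ ¬ D p := ⟨_, rfl⟩
    have hQ'def : ∀ p, Q' p ↔ (p.Prime ∧ ¬ D p) := fun p => by rw [hQ'e]
    rw [← hQ'e]
    have hag : ∀ m ≤ sm Q (n + 1), (Q m ↔ Q' m) := by
      intro m hm
      rw [hQdef, hQ'def, hD m hm]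
      tauto
    have hS2 := sm_succ Q n
    have hnth : Nat.nth Q n ≤ sm Q (n + 1) := by omega
    have e1 := sm_agree Q Q' hQinf n (fun m hm => hag m (hm.trans hnth)) n (by omega)
    have e2 := sm_agree Q Q' hQinf n (fun m hm => hag m (hm.trans hnth)) (n + 1) (by omega)
    have e3 : cn Q' n = ((Ioo (sm Q n) (sm Q (n + 1))).filter Q).card := by
      unfold cn
      rw [e1, e2]
      congr 1
      apply filter_congr
      intro m hm
      rw [mem_Ioo] at hm
      exact (hag m (by omega)).symm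
    by_contra hcon
    push Not at hcon
    have hn0 : (0 : ℝ) < n := by
      rw [abs_le] at hc
      have h5 : δ * mm x ≤ 1 / 20 * mm x := mul_le_mul_of_nonneg_right hδ1 hm.le
      have h6 : (0 : ℝ) ≤ B := Nat.cast_nonneg _
      linarith
    have h6 : |((cn Q' n : ℕ) : ℝ) - (n : ℝ) / 2| ≤ δ * ((n : ℝ) / 2) := by
      have e : ((cn Q' n : ℕ) : ℝ) - (n : ℝ) / 2 =
          (2 * (cn Q' n : ℝ) / n - 1) * ((n : ℝ) / 2) := by field_simp
      rw [e, abs_mul, abs_of_pos (show 0 < (n : ℝ) / 2 by positivity)]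
      exact mul_le_mul_of_nonneg_right hcon (by positivity)
    have hS2' : ((sm Q (n + 1) : ℕ) : ℝ) = sm Q n + Nat.nth Q n := by
      rw [hS2]; push_cast; ring
    have hab : sm Q n < sm Q (n + 1) := by
      have h7 : (0 : ℝ) < Nat.nth Q n := by
        rw [abs_le] at hb
        have : δ * hh x ≤ 1 / 20 * hh x := mul_le_mul_of_nonneg_right hδ1 hh0.le
        linarith
      have h8 : 0 < Nat.nth Q n := by exact_mod_cast h7
      omega
    have hδh : 0 < δ * hh x := mul_pos hδ hh0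
    have h7 := h2 (sm Q n) (sm Q (n + 1)) hab (ha.trans (by linarith)) (by
      rw [hS2']
      rw [abs_le] at ha hb ⊢
      constructor <;> linarith)
    have h8 := card_del_fin D0 q (Ioo (sm Q n) (sm Q (n + 1)))
    have h9 : ((cn Q' n : ℕ) : ℝ) =
        (((Ioo (sm Q n) (sm Q (n + 1))).filter (fun p => P0 D0 p ∧ p ≠ q)).card : ℝ) := by
      rw [e3]
      norm_cast
      congr 1
      ext m
      simp only [mem_filter, hQdef, P0]
    rw [← h9] at h8
    have h10 : |((cn Q' n : ℕ) : ℝ) - WW x| ≤ (C + 1 / 8) * (8 * δ) * mm x := by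
      rw [abs_le] at h7 h8 ⊢
      constructor <;> linarith
    have h11 := last (ε := ε) hδ hm hc h6 h10 (by linarith) (by linarith)
    linarith

theorem three_one (hW : WinStmt)
    (hP : Tendsto (fun x : ℝ => (ct Nat.Prime x : ℝ) * Real.log x / x) atTop (𝓝 1))
    (g : ℕ → ℕ) (hg : Tendsto g atTop atTop) (hU : SparseDel g) : ShortPNT := by
  by_contra hno
  -- a bad ε
  have hbad : ∃ ε : ℝ, 0 < ε ∧ ∃ᶠ x : ℝ in atTop, ε * mm x < |WW x - mm x| := by
    by_contra hcon
    push Not at hcon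
    apply hno
    have : Tendsto (fun x : ℝ => WW x / mm x) atTop (𝓝 1) := by
      rw [Metric.tendsto_nhds]
      intro ε hε
      have h0 := hcon (ε / 2) (by positivity)
      filter_upwards [h0, eventually_gt_atTop (2 : ℝ)] with x h1 h2
      have hm := mm_pos x (by linarith)
      have e : WW x / mm x - 1 = (WW x - mm x) / mm x := by field_simp
      rw [Real.dist_eq, e, abs_div, abs_of_pos hm, div_lt_iff₀ hm]
      nlinarith
    exact this
  obtain ⟨ε, hε, hbad⟩ := hbad
  obtain ⟨δ, hδ, hstep⟩ := step hW hP ε hε hbad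
  choose fq fn fL h1 h2 h3 h4 h5 using hstep
  have hG : ∀ c : ℕ, ∃ G : ℕ, ∀ t ≥ G, c ≤ g t := fun c =>
    eventually_atTop.1 (hg.eventually_ge_atTop c)
  choose G hG using hG
  -- the recursion
  let BB : ℕ → (Finset ℕ × ℕ) → ℕ := fun j s => max (s.2 + 1) (max (G (j + 1)) j)
  let s : ℕ → Finset ℕ × ℕ := fun j => Nat.rec (∅, 0)
    (fun j s => (insert (fq s.1 (BB j s)) s.1,
      max (fL s.1 (BB j s)) (max (fq s.1 (BB j s)) s.2))) j
  have hs0 : s 0 = (∅, 0) := rfl
  have hs1 : ∀ j, s (j + 1) = (insert (fq (s j).1 (BB j (s j))) (s j).1,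
      max (fL (s j).1 (BB j (s j))) (max (fq (s j).1 (BB j (s j))) (s j).2)) := fun j => rfl
  have hBB : ∀ j, (s j).2 + 1 ≤ BB j (s j) ∧ G (j + 1) ≤ BB j (s j) ∧ j ≤ BB j (s j) := by
    intro j
    refine ⟨le_max_left _ _, ?_, ?_⟩
    · exact (le_max_left _ _).trans (le_max_right _ _)
    · exact (le_max_right _ _).trans (le_max_right _ _)
  clear_value BB s
  have hm1 : ∀ j, (s j).2 < (s (j + 1)).2 := by
    intro j
    rw [hs1 j]
    have a1 := (hBB j).1
    have a2 := h3 (s j).1 (BB j (s j))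
    have a3 : fq (s j).1 (BB j (s j)) ≤
        max (fL (s j).1 (BB j (s j))) (max (fq (s j).1 (BB j (s j))) (s j).2) :=
      (le_max_left _ _).trans (le_max_right _ _)
    simp only
    omega
  have hm2 : ∀ i j, i ≤ j → (s i).2 ≤ (s j).2 := by
    intro i j hij
    induction hij with
    | refl => exact le_rfl
    | step _ ih => exact ih.trans (hm1 _).le
  have hsub : ∀ i j, i ≤ j → (s i).1 ⊆ (s j).1 := by
    intro i j hij
    induction hij with
    | refl => exact Subset.refl _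
    | step _ ih =>
      rename_i m _
      refine ih.trans ?_
      rw [hs1 m]
      exact subset_insert _ _
  have hback : ∀ i j, i ≤ j → ∀ m ∈ (s j).1, m ≤ (s i).2 → m ∈ (s i).1 := by
    intro i j hij
    induction hij with
    | refl => exact fun m hm _ => hm
    | step hij' ih =>
      rename_i k
      intro m hm hle
      rw [hs1 k] at hm
      simp only [mem_insert] at hm
      rcases hm with hm | hm
      · exfalso
        have a1 := (hBB k).1
        have a2 := h3 (s k).1 (BB k (s k))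
        have a3 := hm2 i k hij'
        omega
      · exact ih m hm hle
  have hge : ∀ j, j ≤ (s j).2 := by
    intro j
    induction j with
    | zero => exact Nat.zero_le _
    | succ j ih => have := hm1 j; omega
  have hprime : ∀ j, ∀ m ∈ (s j).1, m.Prime := by
    intro j
    induction j with
    | zero => rw [hs0]; simp
    | succ j ih =>
      intro m hm
      rw [hs1 j] at hm
      simp only [mem_insert] at hm
      rcases hm with hm | hm
      · rw [hm]; exact h1 _ _
      · exact ih m hm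
  have hcard : ∀ j, (s j).1.card ≤ j := by
    intro j
    induction j with
    | zero => rw [hs0]; simp
    | succ j ih =>
      rw [hs1 j]
      exact (card_insert_le _ _).trans (by omega)
  have hcnt : ∀ j n, ((s j).1.filter (fun m => m ≤ n)).card ≤ g n := by
    intro j
    induction j with
    | zero => intro n; rw [hs0]; simp
    | succ j ih =>
      intro n
      by_cases hq : fq (s j).1 (BB j (s j)) ≤ n
      · have a1 : ((s (j + 1)).1.filter (fun m => m ≤ n)).card ≤ j + 1 :=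
          (card_filter_le _ _).trans (hcard (j + 1))
        refine a1.trans (hG (j + 1) n ?_)
        have a2 := (hBB j).2.1
        have a3 := h3 (s j).1 (BB j (s j))
        omega
      · refine le_trans (card_le_card ?_) (ih n)
        intro m hm
        rw [mem_filter] at hm ⊢
        rw [hs1 j] at hm
        simp only [mem_insert] at hm
        rcases hm.1 with h | h
        · exfalso; omega
        · exact ⟨h, hm.2⟩
  -- the set D
  have key := hU (fun m => ∃ j, m ∈ (s j).1) (fun m ⟨j, hj⟩ => hprime j m hj) (by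
    intro n
    refine le_trans ?_ (hcnt n n)
    unfold ct
    rw [Nat.floor_natCast]
    apply card_le_card
    intro m hm
    simp only [mem_filter, mem_Icc] at hm ⊢
    obtain ⟨⟨_, hmn⟩, j, hj⟩ := hm
    refine ⟨?_, hmn⟩
    have hj' : m ∈ (s (max j n)).1 := hsub j _ (le_max_left _ _) hj
    exact hback n (max j n) (le_max_right _ _) m hj' (hmn.trans (hge n)))
  have key2 := Metric.tendsto_nhds.1 key δ hδ
  obtain ⟨n0, hn0⟩ := eventually_atTop.1 key2
  have a1 := h4 (s n0).1 (BB n0 (s n0))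
  have a2 := (hBB n0).2.2
  have a3 := hn0 (fn (s n0).1 (BB n0 (s n0))) (by omega)
  have a4 := h5 (s n0).1 (BB n0 (s n0)) (fun m => ∃ j, m ∈ (s j).1) (by
    intro m hm
    have b1 : m ≤ (s (n0 + 1)).2 := by
      rw [hs1 n0]
      exact hm.trans (le_max_left _ _)
    have b2 : (∃ j, m ∈ (s j).1) ↔ m ∈ (s (n0 + 1)).1 := by
      constructor
      · rintro ⟨j, hj⟩
        exact hback (n0 + 1) (max j (n0 + 1)) (le_max_right _ _) m
          (hsub j _ (le_max_left _ _) hj) b1
      · intro h; exact ⟨_, h⟩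
    rw [b2, hs1 n0]
    simp only [mem_insert]
    tauto)
  rw [Real.dist_eq] at a3
  linarith

end Pool.Agent.Lib.MP_3ef1ab_nt
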