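import Pool.Agent.Lib.MP_3ef1ab_nt.E.Pc
import Pool.Agent.Lib.MP_3ef1ab_nt.E.Rec
import Pool.Agent.Lib.MP_3ef1ab_nt.E.Five
import Pool.Agent.Lib.BV.All

/-! MP_3ef1ab_nt, part E, module Main: the equivalence. -/

set_option autoImplicit false

namespace Pool.Agent.Lib.MP_3ef1ab_nt

open Finset Filter Topology Asymptotics

theorem pc : PcStmt := tPc Pool.Agent.Lib.BV.aPnt

theorem win : WinStmt := tWin (tBtW (tBt Pool.Agent.Lib.BV.aUb))

theorem stable (g : ℕ → ℕ) (hg : Tendsto g atTop atTop)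
    (hg' : Tendsto (fun n : ℕ => (g n : ℝ) / √((n : ℝ) / Real.log n)) atTop (𝓝 0))
    (K : ℕ → ℕ) (hK : ∀ᶠ n : ℕ in atTop, 3 * √(n : ℝ) ≤ K n)
    (hK' : Tendsto (fun n : ℕ => (K n : ℝ) / n) atTop (𝓝 0)) :
    List.TFAE [ShortPNT, AllNear, SparseDel g, UniDel, UniStart K] := by
  tfae_have 1 → 2 := fun h Q hQ => one_two win pc h Q hQ
  tfae_have 2 → 3 := two_three g hg'
  tfae_have 3 → 1 := three_one win pc g hg
  tfae_have 1 → 4 := one_four win pc
  tfae_have 4 → 1 := four_one win pc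
  tfae_have 1 → 5 := fun h => one_five win pc h K hK'
  tfae_have 5 → 1 := five_one win pc K hK
  tfae_finish

end Pool.Agent.Lib.MP_3ef1ab_nt
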