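import Pool.Agent.Lib.MP_3ef1ab_nt.E.Defs

/-! MP_3ef1ab_nt, part E, module Nth: asymptotics of the `n`-th element and of the sum of the first
`n` elements of a set with counting function `~ x / log x`. -/

set_option autoImplicit false

namespace Pool.Agent.Lib.MP_3ef1ab_nt

open Finset Filter Topology Asymptotics
open scoped Classical

/-- `Q` is a set of positive integers with counting function `~ x / log x` -/
def PLike (Q : ℕ → Prop) : Prop :=
  ¬ Q 0 ∧ Tendsto (fun x : ℝ => (ct Q x : ℝ) * Real.log x / x) atTop (𝓝 1)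

theorem ct_nat (Q : ℕ → Prop) (h0 : ¬ Q 0) (n : ℕ) : ct Q (n : ℝ) = Nat.count Q (n + 1) := by
  unfold ct
  rw [Nat.floor_natCast, Nat.count_eq_card_filter_range]
  congr 1
  ext m
  simp only [mem_filter, mem_Icc, mem_range]
  constructor
  · rintro ⟨⟨_, h2⟩, h3⟩
    exact ⟨by omega, h3⟩
  · rintro ⟨h1, h3⟩
    refine ⟨⟨?_, by omega⟩, h3⟩
    rcases Nat.eq_zero_or_pos m with h | h
    · subst h; exact absurd h3 h0
    · exact h

theorem ct_floor (Q : ℕ → Prop) (x : ℝ) : ct Q x = ct Q ((⌊x⌋₊ : ℕ) : ℝ) := by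
  unfold ct
  rw [Nat.floor_natCast]

theorem PLike.infinite {Q : ℕ → Prop} (h : PLike Q) : (Set.ofPred Q).Infinite := by
  by_contra hc
  rw [Set.not_infinite] at hc
  obtain ⟨B, hB⟩ := hc.bddAbove
  have h1 : ∀ x : ℝ, (ct Q x : ℝ) ≤ B := by
    intro x
    unfold ct
    have : ((Icc 1 ⌊x⌋₊).filter Q) ⊆ Icc 1 B := by
      intro m hm
      simp only [mem_filter, mem_Icc] at hm ⊢
      exact ⟨hm.1.1, hB hm.2⟩
    have := card_le_card this
    rw [Nat.card_Icc] at this
    exact_mod_cast (by omega : ((Icc 1 ⌊x⌋₊).filter Q).card ≤ B)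
  have h2 : Tendsto (fun x : ℝ => (B : ℝ) * (Real.log x / x)) atTop (𝓝 0) := by
    have := (Real.isLittleO_log_id_atTop.tendsto_div_nhds_zero).const_mul (B : ℝ)
    simpa using this
  have h3 : Tendsto (fun x : ℝ => (ct Q x : ℝ) * Real.log x / x) atTop (𝓝 0) := by
    refine tendsto_of_tendsto_of_tendsto_of_le_of_le' tendsto_const_nhds h2 ?_ ?_
    · filter_upwards [eventually_ge_atTop (1 : ℝ)] with x hx
      have := Real.log_nonneg hx
      positivity
    · filter_upwards [eventually_ge_atTop (1 : ℝ)] with x hx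
      have h4 := Real.log_nonneg hx
      rw [mul_div_assoc]
      exact mul_le_mul_of_nonneg_right (h1 x) (by positivity)
  have := tendsto_nhds_unique h.2 h3
  norm_num at this

theorem PLike.nth_ge {Q : ℕ → Prop} (h : PLike Q) (n : ℕ) : n + 1 ≤ Nat.nth Q n := by
  have hinf := h.infinite
  have h1 : Nat.count Q (Nat.nth Q n) = n := Nat.count_nth_of_infinite hinf n
  have h2 : ct Q ((Nat.nth Q n : ℕ) : ℝ) = n + 1 := by
    rw [ct_nat Q h.1, Nat.count_succ, h1, if_pos (Nat.nth_mem_of_infinite hinf n)]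
  have h3 : ct Q ((Nat.nth Q n : ℕ) : ℝ) ≤ Nat.nth Q n := by
    unfold ct
    rw [Nat.floor_natCast]
    calc _ ≤ (Icc 1 (Nat.nth Q n)).card := card_filter_le _ _
      _ = Nat.nth Q n := by simp
  omega

theorem PLike.ct_nth {Q : ℕ → Prop} (h : PLike Q) (n : ℕ) :
    ct Q ((Nat.nth Q n : ℕ) : ℝ) = n + 1 := by
  have hinf := h.infinite
  have h1 : Nat.count Q (Nat.nth Q n) = n := Nat.count_nth_of_infinite hinf n
  rw [ct_nat Q h.1, Nat.count_succ, h1, if_pos (Nat.nth_mem_of_infinite hinf n)]

theorem PLike.nth_tendsto {Q : ℕ → Prop} (h : PLike Q) :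
    Tendsto (fun n : ℕ => ((Nat.nth Q n : ℕ) : ℝ)) atTop atTop := by
  apply tendsto_atTop_mono (f := fun n : ℕ => (n : ℝ)) _ tendsto_natCast_atTop_atTop
  intro n
  have := h.nth_ge n
  exact_mod_cast (by omega : n ≤ Nat.nth Q n)

/-- `(n + 1) log a_n / a_n → 1` -/
theorem PLike.nth1 {Q : ℕ → Prop} (h : PLike Q) :
    Tendsto (fun n : ℕ => ((n : ℝ) + 1) * Real.log (Nat.nth Q n) / (Nat.nth Q n)) atTop (𝓝 1) := by
  have := h.2.comp h.nth_tendsto
  refine this.congr fun n => ?_
  simp only [Function.comp]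
  rw [h.ct_nth n]
  push_cast
  rfl

/-- `log n / log a_n → 1` -/
theorem PLike.nth2 {Q : ℕ → Prop} (h : PLike Q) :
    Tendsto (fun n : ℕ => Real.log n / Real.log (Nat.nth Q n)) atTop (𝓝 1) := by
  have ha := h.nth_tendsto
  have hl : Tendsto (fun n : ℕ => Real.log (Nat.nth Q n : ℕ)) atTop atTop :=
    Real.tendsto_log_atTop.comp ha
  have h1 := h.nth1
  -- log of the ratio tends to 0
  have h2 : Tendsto (fun n : ℕ => Real.log (((n : ℝ) + 1) * Real.log (Nat.nth Q n) /
      (Nat.nth Q n))) atTop (𝓝 0) := by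
    have := (Real.continuousAt_log (one_ne_zero)).tendsto.comp h1
    rw [Real.log_one] at this
    exact this
  have h3 : Tendsto (fun n : ℕ => Real.log (((n : ℝ) + 1) * Real.log (Nat.nth Q n) /
      (Nat.nth Q n)) / Real.log (Nat.nth Q n)) atTop (𝓝 0) := h2.div_atTop hl
  have h4 : Tendsto (fun n : ℕ => Real.log (Real.log (Nat.nth Q n)) / Real.log (Nat.nth Q n))
      atTop (𝓝 0) := (Real.isLittleO_log_id_atTop.tendsto_div_nhds_zero).comp hl
  have h5 : Tendsto (fun n : ℕ => (Real.log ((n : ℝ) + 1) - Real.log n) /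
      Real.log (Nat.nth Q n)) atTop (𝓝 0) := by
    have e : Tendsto (fun n : ℕ => Real.log ((n : ℝ) + 1) - Real.log n) atTop (𝓝 0) := by
      have e1 : Tendsto (fun n : ℕ => 1 + 1 / (n : ℝ)) atTop (𝓝 (1 + 0)) :=
        tendsto_const_nhds.add tendsto_one_div_atTop_nhds_zero_nat
      rw [add_zero] at e1
      have e2 := (Real.continuousAt_log (one_ne_zero)).tendsto.comp e1
      rw [Real.log_one] at e2
      refine e2.congr' ?_
      filter_upwards [eventually_ge_atTop 1] with n hn
      have hn0 : (0 : ℝ) < n := by exact_mod_cast hn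
      simp only [Function.comp]
      rw [← Real.log_div (by positivity) hn0.ne']
      congr 1
      field_simp
    exact e.div_atTop hl
  have h6 := ((tendsto_const_nhds (x := (1 : ℝ))).add h3).sub h4 |>.sub h5
  simp only [add_zero, sub_zero] at h6
  refine h6.congr' ?_
  filter_upwards [eventually_ge_atTop 3] with n hn
  have hn0 : (0 : ℝ) < n := by exact_mod_cast (by omega : 0 < n)
  have ha1 : (4 : ℝ) ≤ (Nat.nth Q n : ℕ) := by
    have := h.nth_ge n
    exact_mod_cast (by omega : 4 ≤ Nat.nth Q n)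
  have hL : 0 < Real.log (Nat.nth Q n : ℕ) := Real.log_pos (by linarith)
  have hL1 : Real.log (Nat.nth Q n : ℕ) ≠ 0 := hL.ne'
  rw [Real.log_div (by positivity) (by linarith), Real.log_mul (by positivity) hL1]
  field_simp
  ring

/-- `a_n / (n log n) → 1` -/
theorem PLike.nth3 {Q : ℕ → Prop} (h : PLike Q) :
    Tendsto (fun n : ℕ => ((Nat.nth Q n : ℕ) : ℝ) / (n * Real.log n)) atTop (𝓝 1) := by
  have h1 := h.nth1.inv₀ one_ne_zero
  have h2 := h.nth2.inv₀ one_ne_zero
  have h3 : Tendsto (fun n : ℕ => 1 + 1 / (n : ℝ)) atTop (𝓝 (1 + 0)) :=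
    tendsto_const_nhds.add tendsto_one_div_atTop_nhds_zero_nat
  have h4 := (h1.mul h2).mul h3
  simp only [inv_one, mul_one, add_zero] at h4
  refine h4.congr' ?_
  filter_upwards [eventually_ge_atTop 3] with n hn
  have hn0 : (0 : ℝ) < n := by exact_mod_cast (by omega : 0 < n)
  have hn1 : (1 : ℝ) < n := by exact_mod_cast (by omega : 1 < n)
  have hln : 0 < Real.log n := Real.log_pos hn1
  have ha1 : (4 : ℝ) ≤ (Nat.nth Q n : ℕ) := by
    have := h.nth_ge n
    exact_mod_cast (by omega : 4 ≤ Nat.nth Q n)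
  have ha0 : (0 : ℝ) < (Nat.nth Q n : ℕ) := by linarith
  have hL : 0 < Real.log (Nat.nth Q n : ℕ) := Real.log_pos (by linarith)
  field_simp

/-- `n² log n / 2` -/
noncomputable def FF (n : ℕ) : ℝ := (n : ℝ) ^ 2 * Real.log n / 2

theorem FF_diff : Tendsto (fun n : ℕ => (FF (n + 1) - FF n) / (n * Real.log n)) atTop (𝓝 1) := by
  have hlog : Tendsto (fun n : ℕ => Real.log n) atTop atTop :=
    Real.tendsto_log_atTop.comp tendsto_natCast_atTop_atTop
  have e1 : Tendsto (fun n : ℕ => 1 + 1 / (n : ℝ)) atTop (𝓝 (1 + 0)) :=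
    tendsto_const_nhds.add tendsto_one_div_atTop_nhds_zero_nat
  rw [add_zero] at e1
  have e2 := (Real.continuousAt_log (one_ne_zero)).tendsto.comp e1
  rw [Real.log_one] at e2
  -- n² (log (n+1) - log n) / (2 n log n) ∈ [0, 1/(2 log n)]
  have u1 : Tendsto (fun n : ℕ => (n : ℝ) ^ 2 * Real.log (1 + 1 / (n : ℝ)) /
      (2 * (n * Real.log n))) atTop (𝓝 0) := by
    have b : Tendsto (fun n : ℕ => 1 / Real.log n) atTop (𝓝 0) :=
      tendsto_const_nhds.div_atTop hlog
    refine tendsto_of_tendsto_of_tendsto_of_le_of_le' tendsto_const_nhds b ?_ ?_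
    · filter_upwards [eventually_ge_atTop 3] with n hn
      have hn1 : (1 : ℝ) < n := by exact_mod_cast (by omega : 1 < n)
      have hln : 0 < Real.log n := Real.log_pos hn1
      have : 0 ≤ Real.log (1 + 1 / (n : ℝ)) := Real.log_nonneg (by
        have : (0 : ℝ) ≤ 1 / n := by positivity
        linarith)
      positivity
    · filter_upwards [eventually_ge_atTop 3] with n hn
      have hn1 : (1 : ℝ) < n := by exact_mod_cast (by omega : 1 < n)
      have hn0 : (0 : ℝ) < n := by linarith
      have hln : 0 < Real.log n := Real.log_pos hn1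
      have h1 : Real.log (1 + 1 / (n : ℝ)) ≤ 1 / n := by
        have := Real.log_le_sub_one_of_pos (show (0 : ℝ) < 1 + 1 / n by positivity)
        linarith
      rw [div_le_div_iff₀ (by positivity) hln]
      calc (n : ℝ) ^ 2 * Real.log (1 + 1 / (n : ℝ)) * Real.log n
          ≤ (n : ℝ) ^ 2 * (1 / n) * Real.log n := by gcongr
        _ = n * Real.log n := by field_simp
        _ ≤ 1 * (2 * (n * Real.log n)) := by
            have : 0 < n * Real.log n := by positivity
            linarith
  -- (2n+1) log (n+1) / (2 n log n) → 1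
  have u2 : Tendsto (fun n : ℕ => (1 + (1 / 2) * (1 / (n : ℝ))) *
      (1 + Real.log (1 + 1 / (n : ℝ)) / Real.log n)) atTop (𝓝 ((1 + (1 / 2) * 0) * (1 + 0))) := by
    refine (tendsto_const_nhds.add (tendsto_one_div_atTop_nhds_zero_nat.const_mul _)).mul
      (tendsto_const_nhds.add ?_)
    exact e2.div_atTop hlog
  have u3 := u1.add u2
  simp only [mul_zero, add_zero, mul_one, zero_add] at u3
  refine u3.congr' ?_
  filter_upwards [eventually_ge_atTop 3] with n hn
  have hn1 : (1 : ℝ) < n := by exact_mod_cast (by omega : 1 < n)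
  have hn0 : (0 : ℝ) < n := by linarith
  have hln : 0 < Real.log n := Real.log_pos hn1
  have h1 : Real.log ((n : ℝ) + 1) = Real.log n + Real.log (1 + 1 / (n : ℝ)) := by
    rw [← Real.log_mul hn0.ne' (by positivity)]
    congr 1
    field_simp
  unfold FF
  push_cast
  rw [h1]
  field_simp
  ring

theorem PLike.sum_asymp {Q : ℕ → Prop} (h : PLike Q) :
    Tendsto (fun n : ℕ => (sm Q n : ℝ) / FF n) atTop (𝓝 1) := by
  have hlog : Tendsto (fun n : ℕ => Real.log n) atTop atTop :=
    Real.tendsto_log_atTop.comp tendsto_natCast_atTop_atTop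
  -- the difference is o(n log n)
  have hd : Tendsto (fun n : ℕ => (((Nat.nth Q n : ℕ) : ℝ) - (FF (n + 1) - FF n)) /
      (n * Real.log n)) atTop (𝓝 0) := by
    have := h.nth3.sub FF_diff
    simp only [sub_self] at this
    refine this.congr fun n => ?_
    ring
  have ho : (fun n : ℕ => ((Nat.nth Q n : ℕ) : ℝ) - (FF (n + 1) - FF n)) =o[atTop]
      (fun n : ℕ => (n : ℝ) * Real.log n) := by
    refine (isLittleO_iff_tendsto' ?_).2 hd
    filter_upwards [eventually_ge_atTop 3] with n hn h0
    have hn1 : (1 : ℝ) < n := by exact_mod_cast (by omega : 1 < n)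
    have hln : 0 < Real.log n := Real.log_pos hn1
    exfalso
    have : 0 < (n : ℝ) * Real.log n := by positivity
    linarith
  have hg0 : ∀ n : ℕ, 0 ≤ (n : ℝ) * Real.log n := fun n =>
    mul_nonneg (Nat.cast_nonneg n) (Real.log_natCast_nonneg n)
  have hgt : Tendsto (fun n : ℕ => ∑ i ∈ range n, (i : ℝ) * Real.log i) atTop atTop := by
    apply tendsto_atTop_mono' atTop (f₁ := fun n : ℕ => ((n : ℝ) - 4) * 1)
    · filter_upwards [eventually_ge_atTop 4] with n hn
      have h1 : ∑ i ∈ Finset.Ico 3 n, (1 : ℝ) ≤ ∑ i ∈ range n, (i : ℝ) * Real.log i := by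
        calc ∑ i ∈ Finset.Ico 3 n, (1 : ℝ) ≤ ∑ i ∈ Finset.Ico 3 n, (i : ℝ) * Real.log i := by
              apply Finset.sum_le_sum
              intro i hi
              rw [Finset.mem_Ico] at hi
              have hi3 : (3 : ℝ) ≤ i := by exact_mod_cast hi.1
              have : 1 ≤ Real.log i := by
                rw [Real.le_log_iff_exp_le (by linarith)]
                have := Real.exp_one_lt_d9
                linarith
              nlinarith
          _ ≤ _ := by
              apply Finset.sum_le_sum_of_subset_of_nonneg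
              · intro i hi
                rw [Finset.mem_Ico] at hi
                exact mem_range.2 hi.2
              · intro i _ _
                exact hg0 i
      rw [Finset.sum_const, Nat.card_Ico, nsmul_eq_mul] at h1
      have h2 : ((n - 3 : ℕ) : ℝ) = n - 3 := by
        rw [Nat.cast_sub (by omega)]; norm_num
      rw [h2] at h1
      linarith
    · simp only [mul_one]
      exact tendsto_atTop_add_const_right _ _ tendsto_natCast_atTop_atTop
  have hs := ho.sum_range hg0 hgt
  -- the sum of i log i is O(FF)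
  have hO : (fun n : ℕ => ∑ i ∈ range n, (i : ℝ) * Real.log i) =O[atTop] FF := by
    apply IsBigO.of_bound 2
    filter_upwards [eventually_ge_atTop 3] with n hn
    have hn1 : (1 : ℝ) < n := by exact_mod_cast (by omega : 1 < n)
    have hln : 0 < Real.log n := Real.log_pos hn1
    rw [Real.norm_of_nonneg (Finset.sum_nonneg fun i _ => hg0 i)]
    unfold FF
    rw [Real.norm_of_nonneg (by positivity)]
    calc ∑ i ∈ range n, (i : ℝ) * Real.log i ≤ ∑ i ∈ range n, (n : ℝ) * Real.log n := by
          apply Finset.sum_le_sum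
          intro i hi
          have hin : i < n := mem_range.1 hi
          rcases Nat.eq_zero_or_pos i with h0 | h0
          · subst h0; simp; positivity
          · have hi0 : (0 : ℝ) < i := by exact_mod_cast h0
            have h1 : (i : ℝ) ≤ n := by exact_mod_cast hin.le
            have h2 : Real.log i ≤ Real.log n := Real.log_le_log hi0 h1
            have h3 : 0 ≤ Real.log (i : ℝ) := Real.log_natCast_nonneg i
            exact mul_le_mul h1 h2 h3 (by positivity)
      _ = (n : ℝ) ^ 2 * Real.log n := by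
          rw [Finset.sum_const, card_range, nsmul_eq_mul]; ring
      _ = 2 * ((n : ℝ) ^ 2 * Real.log n / 2) := by ring
  have hs2 := hs.trans_isBigO hO
  have hs3 : (fun n : ℕ => (sm Q n : ℝ) - FF n) =o[atTop] FF := by
    refine hs2.congr_left fun n => ?_
    rw [Finset.sum_sub_distrib, Finset.sum_range_sub]
    unfold sm
    push_cast
    have : FF 0 = 0 := by unfold FF; simp
    rw [this, sub_zero]
  have h4 := hs3.tendsto_div_nhds_zero
  have h5 := h4.add_const 1
  simp only [zero_add] at h5
  refine h5.congr' ?_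
  filter_upwards [eventually_ge_atTop 3] with n hn
  have hn1 : (1 : ℝ) < n := by exact_mod_cast (by omega : 1 < n)
  have hln : 0 < Real.log n := Real.log_pos hn1
  have : FF n ≠ 0 := by unfold FF; positivity
  field_simp
  ring

end Pool.Agent.Lib.MP_3ef1ab_nt
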