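import Pool.Agent.Lib.MP_3ef1ab_nt.E.Win

/-! MP_3ef1ab_nt, part E, module One: the short interval prime number theorem implies Sun's law for
all small perturbations of the set of primes. -/

set_option autoImplicit false

namespace Pool.Agent.Lib.MP_3ef1ab_nt

open Finset Filter Topology Asymptotics
open scoped Classical

theorem ct_diff (Q : ℕ → Prop) (s : Finset ℕ) :
    |((s.filter Q).card : ℝ) - (s.filter Nat.Prime).card| ≤
      (s.filter (fun m => ¬ (Q m ↔ m.Prime))).card := by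
  have h1 : (s.filter Q).card ≤ (s.filter Nat.Prime).card +
      (s.filter (fun m => ¬ (Q m ↔ m.Prime))).card := by
    refine le_trans (card_le_card ?_) (card_union_le _ _)
    intro m hm
    simp only [mem_filter, mem_union] at hm ⊢
    by_cases h : m.Prime
    · left; exact ⟨hm.1, h⟩
    · right; exact ⟨hm.1, fun h' => h (h'.1 hm.2)⟩
  have h2 : (s.filter Nat.Prime).card ≤ (s.filter Q).card +
      (s.filter (fun m => ¬ (Q m ↔ m.Prime))).card := by
    refine le_trans (card_le_card ?_) (card_union_le _ _)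
    intro m hm
    simp only [mem_filter, mem_union] at hm ⊢
    by_cases h : Q m
    · left; exact ⟨hm.1, h⟩
    · right; exact ⟨hm.1, fun h' => h (h'.2 hm.2)⟩
  rw [abs_le]
  have h1' : ((s.filter Q).card : ℝ) ≤ (s.filter Nat.Prime).card +
      (s.filter (fun m => ¬ (Q m ↔ m.Prime))).card := by exact_mod_cast h1
  have h2' : ((s.filter Nat.Prime).card : ℝ) ≤ (s.filter Q).card +
      (s.filter (fun m => ¬ (Q m ↔ m.Prime))).card := by exact_mod_cast h2
  constructor <;> linarith

/-- `mm x * log x / x → 0` -/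
theorem mm_log : Tendsto (fun x : ℝ => mm x * Real.log x / x) atTop (𝓝 0) := by
  refine hh_div.congr' ?_
  filter_upwards [eventually_gt_atTop (1 : ℝ)] with x hx
  rw [hh_eq x hx]

theorem Near.plike {Q : ℕ → Prop} (h : Near Q)
    (hP : Tendsto (fun x : ℝ => (ct Nat.Prime x : ℝ) * Real.log x / x) atTop (𝓝 1)) :
    PLike Q := by
  refine ⟨h.1, ?_⟩
  have h1 : Tendsto (fun x : ℝ => (ct (fun m => ¬ (Q m ↔ m.Prime)) x : ℝ) / mm x *
      (mm x * Real.log x / x)) atTop (𝓝 (0 * 0)) := h.2.mul mm_log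
  rw [zero_mul] at h1
  have h2 : ∀ᶠ x : ℝ in atTop, ‖(ct Q x : ℝ) * Real.log x / x -
      (ct Nat.Prime x : ℝ) * Real.log x / x‖ ≤
      (ct (fun m => ¬ (Q m ↔ m.Prime)) x : ℝ) / mm x * (mm x * Real.log x / x) := by
    filter_upwards [eventually_gt_atTop (1 : ℝ)] with x hx
    have hL : 0 < Real.log x := Real.log_pos hx
    have h0 : 0 < x := by linarith
    have hm := mm_pos x hx
    have h3 := ct_diff Q (Icc 1 ⌊x⌋₊)
    rw [← sub_div, ← sub_mul, norm_div, norm_mul, Real.norm_eq_abs, Real.norm_of_nonneg hL.le,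
      Real.norm_of_nonneg h0.le]
    have h4 : |(ct Q x : ℝ) - ct Nat.Prime x| ≤ ct (fun m => ¬ (Q m ↔ m.Prime)) x := by
      unfold ct
      rw [card_cl]
      convert h3 using 4
    calc |(ct Q x : ℝ) - ct Nat.Prime x| * Real.log x / x
        ≤ (ct (fun m => ¬ (Q m ↔ m.Prime)) x : ℝ) * Real.log x / x := by gcongr
      _ = _ := by field_simp
  have h3 := squeeze_zero_norm' h2 h1
  have h4 := h3.add hP
  simpa using h4

/-- The general tile lemma: for a set Q with the right counting function, the number of primes in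
the tile `n` is eventually close to the number of primes in the window at the start of the tile. -/
theorem tile {Q : ℕ → Prop} (hQ : PLike Q) (hW : WinStmt) (ε : ℝ) (hε : 0 < ε) :
    ∀ᶠ n : ℕ in atTop, |(((Ioo (sm Q n) (sm Q (n + 1))).filter Nat.Prime).card : ℝ) -
      WW (sm Q n)| ≤ ε * mm (sm Q n) := by
  obtain ⟨C, hC, h⟩ := hW
  have h1 := hQ.sm_tendsto.eventually (h (ε / C) (by positivity))
  have h2 := Metric.tendsto_nhds.1 hQ.nth_hh (ε / C) (by positivity)
  filter_upwards [h1, h2, hQ.sm_tendsto.eventually_gt_atTop 1] with n h1 h2 h3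
  have hp := hh_pos _ h3
  have hn : sm Q (n + 1) = sm Q n + Nat.nth Q n := by
    unfold sm
    rw [sum_range_succ]
  have hpos : 0 < Nat.nth Q n := lt_of_lt_of_le (Nat.succ_pos n) (hQ.nth_ge n)
  have h4 := h1 (sm Q n) (sm Q (n + 1)) (by omega) (by
    rw [sub_self, abs_zero]; positivity) (by
    rw [hn]
    push_cast
    rw [add_sub_add_left_eq_sub]
    rw [Real.dist_eq] at h2
    have e : ((Nat.nth Q n : ℕ) : ℝ) - hh (sm Q n) =
        (((Nat.nth Q n : ℕ) : ℝ) / hh (sm Q n) - 1) * hh (sm Q n) := by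
      field_simp
    rw [e, abs_mul, abs_of_pos hp]
    exact mul_le_mul_of_nonneg_right h2.le hp.le)
  calc _ ≤ _ := h4
    _ = ε * mm (sm Q n) := by field_simp

theorem one_two (hW : WinStmt)
    (hP : Tendsto (fun x : ℝ => (ct Nat.Prime x : ℝ) * Real.log x / x) atTop (𝓝 1))
    (hS : ShortPNT) (Q : ℕ → Prop) (hN : Near Q) : SunLaw Q := by
  have hQ := hN.plike hP
  -- the window at T_n
  have h1 : Tendsto (fun n : ℕ => WW (sm Q n) / mm (sm Q n)) atTop (𝓝 1) :=
    hS.comp hQ.sm_tendsto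
  -- primes in the tile
  have h2 : Tendsto (fun n : ℕ => ((((Ioo (sm Q n) (sm Q (n + 1))).filter Nat.Prime).card : ℝ) -
      WW (sm Q n)) / mm (sm Q n)) atTop (𝓝 0) := by
    rw [Metric.tendsto_nhds]
    intro ε hε
    filter_upwards [tile hQ hW (ε / 2) (by positivity), hQ.sm_tendsto.eventually_gt_atTop 1] with
      n h3 h4
    have hm := mm_pos _ h4
    rw [Real.dist_eq, sub_zero, abs_div, abs_of_pos hm, div_lt_iff₀ hm]
    calc _ ≤ _ := h3
      _ < ε * mm (sm Q n) := by nlinarith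
  -- the difference between Q and the primes
  have h3 : Tendsto (fun n : ℕ => (((cn Q n : ℕ) : ℝ) -
      (((Ioo (sm Q n) (sm Q (n + 1))).filter Nat.Prime).card : ℝ)) / mm (sm Q n)) atTop (𝓝 0) := by
    have hsucc : Tendsto (fun n : ℕ => ((sm Q (n + 1) : ℕ) : ℝ)) atTop atTop :=
      hQ.sm_tendsto.comp (tendsto_add_atTop_nat 1)
    have k1 : Tendsto (fun n : ℕ => (ct (fun m => ¬ (Q m ↔ m.Prime)) (sm Q (n + 1)) : ℝ) /
        mm (sm Q (n + 1))) atTop (𝓝 0) := hN.2.comp hsucc
    have k2 : Tendsto (fun n : ℕ => mm (sm Q (n + 1)) / (((n + 1 : ℕ) : ℝ) / 2)) atTop (𝓝 1) :=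
      hQ.mm_sm.comp (tendsto_add_atTop_nat 1)
    have k3 : Tendsto (fun n : ℕ => (((n + 1 : ℕ) : ℝ) / 2) / ((n : ℝ) / 2)) atTop (𝓝 1) := by
      have : Tendsto (fun n : ℕ => 1 + 1 / (n : ℝ)) atTop (𝓝 (1 + 0)) :=
        tendsto_const_nhds.add tendsto_one_div_atTop_nhds_zero_nat
      rw [add_zero] at this
      refine this.congr' ?_
      filter_upwards [eventually_ge_atTop 1] with n hn
      have hn0 : (0 : ℝ) < n := by exact_mod_cast hn
      push_cast
      field_simp
    have k4 : Tendsto (fun n : ℕ => ((n : ℝ) / 2) / mm (sm Q n)) atTop (𝓝 1) := by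
      have := hQ.mm_sm.inv₀ one_ne_zero
      rw [inv_one] at this
      refine this.congr fun n => ?_
      rw [inv_div]
    have k5 := ((k1.mul k2).mul k3).mul k4
    simp only [zero_mul] at k5
    refine squeeze_zero_norm' ?_ k5
    filter_upwards [hQ.sm_tendsto.eventually_gt_atTop 1, hsucc.eventually_gt_atTop 1,
      eventually_ge_atTop 1] with n h4 h5 h6
    have hm := mm_pos _ h4
    have hm2 := mm_pos _ h5
    have hn0 : (0 : ℝ) < n := by exact_mod_cast h6
    have d := ct_diff Q (Ioo (sm Q n) (sm Q (n + 1)))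
    have d2 : ((Ioo (sm Q n) (sm Q (n + 1))).filter (fun m => ¬ (Q m ↔ m.Prime))).card ≤
        ct (fun m => ¬ (Q m ↔ m.Prime)) (sm Q (n + 1)) := by
      unfold ct
      rw [Nat.floor_natCast]
      apply card_le_card
      intro m hm
      simp only [mem_filter, mem_Ioo, mem_Icc] at hm ⊢
      exact ⟨by omega, hm.2⟩
    have d2' : (((Ioo (sm Q n) (sm Q (n + 1))).filter (fun m => ¬ (Q m ↔ m.Prime))).card : ℝ) ≤
        ct (fun m => ¬ (Q m ↔ m.Prime)) (sm Q (n + 1)) := by exact_mod_cast d2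
    rw [Real.norm_eq_abs, abs_div, abs_of_pos hm]
    have e : (ct (fun m => ¬ (Q m ↔ m.Prime)) (sm Q (n + 1)) : ℝ) / mm (sm Q (n + 1)) *
        (mm (sm Q (n + 1)) / (((n + 1 : ℕ) : ℝ) / 2)) * (((n + 1 : ℕ) : ℝ) / 2 / ((n : ℝ) / 2)) *
        ((n : ℝ) / 2 / mm (sm Q n)) =
        (ct (fun m => ¬ (Q m ↔ m.Prime)) (sm Q (n + 1)) : ℝ) / mm (sm Q n) := by
      push_cast
      field_simp
    rw [e]
    apply div_le_div_of_nonneg_right _ hm.le
    unfold cn
    linarith
  have h4 := ((h1.add h2).add h3).mul hQ.mm_sm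
  simp only [add_zero, mul_one] at h4
  refine h4.congr' ?_
  filter_upwards [hQ.sm_tendsto.eventually_gt_atTop 1, eventually_ge_atTop 1] with n h5 h6
  have hm := mm_pos _ h5
  have hn0 : (0 : ℝ) < n := by exact_mod_cast h6
  field_simp
  ring

end Pool.Agent.Lib.MP_3ef1ab_nt
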