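import Pool.Agent.Lib.MP_3ef1ab_nt.E.Defs
import Pool.Agent.Lib.BV.SpecD

/-! MP_3ef1ab_nt, part E, module Pc: `π(x) ~ x / log x` from the prime number theorem of Lib/BV. -/

set_option autoImplicit false

namespace Pool.Agent.Lib.MP_3ef1ab_nt

open Finset Filter Topology
open scoped Classical

theorem pc_int (a b : ℝ) (ha : 2 ≤ a) (hab : a ≤ b) :
    IntervalIntegrable (fun t : ℝ => (Real.log t)⁻¹) MeasureTheory.volume a b := by
  apply ContinuousOn.intervalIntegrable
  rw [Set.uIcc_of_le hab]
  apply ContinuousOn.inv₀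
  · exact Real.continuousOn_log.mono (fun t ht => by
      have : 2 ≤ t := le_trans ha ht.1
      simp only [Set.mem_compl_iff, Set.mem_singleton_iff]
      linarith)
  · intro t ht
    have : 2 ≤ t := le_trans ha ht.1
    exact (Real.log_pos (by linarith)).ne'

/-- an upper bound for the integral over `[a, b]` -/
theorem pc_ub (a b : ℝ) (ha : 2 ≤ a) (hab : a ≤ b) :
    ∫ t in a..b, (Real.log t)⁻¹ ≤ (b - a) / Real.log a := by
  have h := intervalIntegral.integral_mono_on (a := a) (b := b) hab (pc_int a b ha hab)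
    (g := fun _ : ℝ => (Real.log a)⁻¹) intervalIntegrable_const
    (fun t ht => by
      have h1 : 0 < Real.log a := Real.log_pos (by linarith)
      exact inv_anti₀ h1 (Real.log_le_log (by linarith) ht.1))
  rw [intervalIntegral.integral_const, smul_eq_mul] at h
  simpa [div_eq_mul_inv] using h

theorem pc_lb (a b : ℝ) (ha : 2 ≤ a) (hab : a ≤ b) :
    (b - a) / Real.log b ≤ ∫ t in a..b, (Real.log t)⁻¹ := by
  have h := intervalIntegral.integral_mono_on (a := a) (b := b) hab
    (f := fun _ : ℝ => (Real.log b)⁻¹) intervalIntegrable_const (pc_int a b ha hab)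
    (fun t ht => by
      have h1 : 0 < Real.log t := Real.log_pos (by linarith [ht.1])
      exact inv_anti₀ h1 (Real.log_le_log (by linarith [ht.1]) ht.2))
  rw [intervalIntegral.integral_const, smul_eq_mul] at h
  simpa [div_eq_mul_inv] using h

/-- `log log x / log x → 0` -/
theorem pc_ll : Tendsto (fun x : ℝ => Real.log (Real.log x) / Real.log x) atTop (𝓝 0) :=
  (Real.isLittleO_log_id_atTop.tendsto_div_nhds_zero).comp Real.tendsto_log_atTop

theorem pc_li : Tendsto (fun x : ℝ => Pool.Agent.Results.MP_00e23e_nt.li x * Real.log x / x)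
    atTop (𝓝 1) := by
  have hlog := Real.tendsto_log_atTop
  -- lower bound
  have hlow : ∀ᶠ x : ℝ in atTop, 1 - 2 / x ≤
      Pool.Agent.Results.MP_00e23e_nt.li x * Real.log x / x := by
    filter_upwards [eventually_ge_atTop (3 : ℝ)] with x hx
    have hL : 0 < Real.log x := Real.log_pos (by linarith)
    have h := pc_lb 2 x le_rfl (by linarith)
    unfold Pool.Agent.Results.MP_00e23e_nt.li
    rw [le_div_iff₀ (by linarith)]
    rw [div_le_iff₀ hL] at h
    have : (1 - 2 / x) * x = x - 2 := by field_simp
    rw [this]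
    exact h
  have hup : ∀ᶠ x : ℝ in atTop, Pool.Agent.Results.MP_00e23e_nt.li x * Real.log x / x ≤
      2 / Real.log x + 1 / (1 - 2 * (Real.log (Real.log x) / Real.log x)) := by
    have h1 : ∀ᶠ x : ℝ in atTop, 1 ≤ Real.log x := hlog.eventually_ge_atTop 1
    have h2 : ∀ᶠ x : ℝ in atTop, Real.log (Real.log x) / Real.log x < 1 / 4 :=
      pc_ll.eventually_lt_const (by norm_num)
    have h3 : ∀ᶠ x : ℝ in atTop, 2 * Real.log x ^ 2 ≤ x := by
      have := (Real.isLittleO_pow_log_id_atTop (n := 2)).def (show (0 : ℝ) < 1 / 2 by norm_num)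
      filter_upwards [this, eventually_ge_atTop (1 : ℝ)] with x hx hx1
      rw [Real.norm_of_nonneg (by positivity), Real.norm_of_nonneg (by simp; linarith)] at hx
      simp only [id] at hx
      linarith
    filter_upwards [h1, h2, h3, eventually_ge_atTop (3 : ℝ)] with x hL1 hll h2x hx
    have hL : 0 < Real.log x := by linarith
    have hx0 : 0 < x := by linarith
    set t := x / Real.log x ^ 2 with ht
    have ht2 : 2 ≤ t := by rw [ht, le_div_iff₀ (by positivity)]; linarith
    have htx : t ≤ x := by
      rw [ht, div_le_iff₀ (by positivity)]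
      nlinarith [one_le_pow₀ hL1 (n := 2)]
    have hlogt : Real.log t = Real.log x * (1 - 2 * (Real.log (Real.log x) / Real.log x)) := by
      rw [ht, Real.log_div hx0.ne' (by positivity), Real.log_pow]
      push_cast
      field_simp
    have hlt : 0 < Real.log t := Real.log_pos (by linarith)
    have hq : 0 < 1 - 2 * (Real.log (Real.log x) / Real.log x) := by
      by_contra hc
      push Not at hc
      rw [hlogt] at hlt
      nlinarith
    have e1 : Pool.Agent.Results.MP_00e23e_nt.li x =
        (∫ s in (2 : ℝ)..t, (Real.log s)⁻¹) + ∫ s in t..x, (Real.log s)⁻¹ := by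
      unfold Pool.Agent.Results.MP_00e23e_nt.li
      rw [intervalIntegral.integral_add_adjacent_intervals (pc_int 2 t le_rfl ht2)
        (pc_int t x ht2 htx)]
    have u1 := pc_ub 2 t le_rfl ht2
    have u2 := pc_ub t x ht2 htx
    have hlog2 : 1 / 2 ≤ Real.log 2 := by
      have := Real.log_two_gt_d9
      linarith
    have u3 : (t - 2) / Real.log 2 ≤ 2 * t := by
      rw [div_le_iff₀ (by linarith)]
      nlinarith
    have u4 : (x - t) / Real.log t ≤ x / Real.log t := by
      apply div_le_div_of_nonneg_right _ hlt.le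
      linarith
    rw [e1, div_le_iff₀ hx0]
    have k1 : (2 / Real.log x + 1 / (1 - 2 * (Real.log (Real.log x) / Real.log x))) * x =
        2 * t * Real.log x + x / Real.log t * Real.log x := by
      rw [hlogt, ht]
      field_simp
    rw [k1, ← add_mul]
    apply mul_le_mul_of_nonneg_right _ hL.le
    linarith
  have l1 : Tendsto (fun x : ℝ => 1 - 2 / x) atTop (𝓝 1) := by
    have : Tendsto (fun x : ℝ => 2 / x) atTop (𝓝 0) := tendsto_const_nhds.div_atTop tendsto_id
    simpa using tendsto_const_nhds.sub this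
  have l2 : Tendsto (fun x : ℝ => 2 / Real.log x +
      1 / (1 - 2 * (Real.log (Real.log x) / Real.log x))) atTop (𝓝 1) := by
    have a1 : Tendsto (fun x : ℝ => 2 / Real.log x) atTop (𝓝 0) :=
      tendsto_const_nhds.div_atTop hlog
    have a2 : Tendsto (fun x : ℝ => 1 - 2 * (Real.log (Real.log x) / Real.log x)) atTop
        (𝓝 (1 - 2 * 0)) := tendsto_const_nhds.sub (pc_ll.const_mul 2)
    have a3 := (tendsto_const_nhds (x := (1 : ℝ))).div a2 (by norm_num)
    simpa using a1.add a3
  exact tendsto_of_tendsto_of_tendsto_of_le_of_le' l1 l2 hlow hup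

/-- The prime number theorem. -/
def PcStmt : Prop := Tendsto (fun x : ℝ => (ct Nat.Prime x : ℝ) * Real.log x / x) atTop (𝓝 1)

theorem tPc (h : Pool.Agent.Lib.BV.PntStmt) : PcStmt := by
  obtain ⟨C, hC, h⟩ := h 2 (by norm_num)
  have hlog := Real.tendsto_log_atTop
  have key : ∀ᶠ x : ℝ in atTop, ‖(ct Nat.Prime x : ℝ) * Real.log x / x -
      Pool.Agent.Results.MP_00e23e_nt.li x * Real.log x / x‖ ≤ C / Real.log x := by
    filter_upwards [eventually_ge_atTop (3 : ℝ)] with x hx
    have hL : 0 < Real.log x := Real.log_pos (by linarith)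
    have hx0 : 0 < x := by linarith
    have h1 := h x hx
    have h2 : (ct Nat.Prime x : ℝ) = Pool.Agent.Lib.BV.npr x := by
      unfold ct Pool.Agent.Lib.BV.npr
      norm_cast
      convert rfl
    rw [← h2, Real.rpow_two] at h1
    rw [← sub_div, ← sub_mul, norm_div, norm_mul, Real.norm_eq_abs, Real.norm_of_nonneg hL.le,
      Real.norm_of_nonneg hx0.le, div_le_iff₀ hx0]
    calc |(ct Nat.Prime x : ℝ) - Pool.Agent.Results.MP_00e23e_nt.li x| * Real.log x
        ≤ C * (x / Real.log x ^ 2) * Real.log x := mul_le_mul_of_nonneg_right h1 hL.le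
      _ = C / Real.log x * x := by field_simp
  have h0 : Tendsto (fun x : ℝ => C / Real.log x) atTop (𝓝 0) :=
    tendsto_const_nhds.div_atTop hlog
  have h1 := squeeze_zero_norm' key h0
  have h2 := h1.add pc_li
  unfold PcStmt
  simpa using h2

end Pool.Agent.Lib.MP_3ef1ab_nt
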