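import Pool.Agent.Lib.MP_3ef1ab_nt.E.Nth

/-! MP_3ef1ab_nt, part E, module Scale: `h(x) = √(x log x)` and `m(x) = √(x / log x)` at the sums. -/

set_option autoImplicit false

namespace Pool.Agent.Lib.MP_3ef1ab_nt

open Finset Filter Topology Asymptotics
open scoped Classical

/-- the length of the intervals -/
noncomputable def hh (x : ℝ) : ℝ := √(x * Real.log x)

/-- the expected number of primes -/
noncomputable def mm (x : ℝ) : ℝ := √(x / Real.log x)

theorem FF_tendsto : Tendsto FF atTop atTop := by
  have hlog : Tendsto (fun n : ℕ => Real.log n) atTop atTop :=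
    Real.tendsto_log_atTop.comp tendsto_natCast_atTop_atTop
  have h2 : Tendsto (fun n : ℕ => (n : ℝ) ^ 2) atTop atTop :=
    (tendsto_pow_atTop (two_ne_zero)).comp tendsto_natCast_atTop_atTop
  have := (h2.atTop_mul_atTop₀ hlog).atTop_div_const (show (0 : ℝ) < 2 by norm_num)
  exact this

theorem PLike.sm_tendsto {Q : ℕ → Prop} (h : PLike Q) :
    Tendsto (fun n : ℕ => ((sm Q n : ℕ) : ℝ)) atTop atTop := by
  have h1 := h.sum_asymp.pos_mul_atTop one_pos FF_tendsto
  refine h1.congr' ?_
  filter_upwards [eventually_ge_atTop 3] with n hn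
  have hn1 : (1 : ℝ) < n := by exact_mod_cast (by omega : 1 < n)
  have hln : 0 < Real.log n := Real.log_pos hn1
  have : FF n ≠ 0 := by unfold FF; positivity
  field_simp

/-- `log T_n / (2 log n) → 1` -/
theorem PLike.log_sm {Q : ℕ → Prop} (h : PLike Q) :
    Tendsto (fun n : ℕ => Real.log (sm Q n) / (2 * Real.log n)) atTop (𝓝 1) := by
  have hlog : Tendsto (fun n : ℕ => Real.log n) atTop atTop :=
    Real.tendsto_log_atTop.comp tendsto_natCast_atTop_atTop
  have h1 := (Real.continuousAt_log (one_ne_zero)).tendsto.comp h.sum_asymp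
  rw [Real.log_one] at h1
  have h2 : Tendsto (fun n : ℕ => (Real.log ∘ fun n : ℕ => (sm Q n : ℝ) / FF n) n /
      (2 * Real.log n)) atTop (𝓝 0) := h1.div_atTop (hlog.const_mul_atTop (by norm_num))
  have h3 : Tendsto (fun n : ℕ => Real.log (Real.log n) / Real.log n) atTop (𝓝 0) :=
    (Real.isLittleO_log_id_atTop.tendsto_div_nhds_zero).comp hlog
  have h4 : Tendsto (fun n : ℕ => Real.log 2 / (2 * Real.log n)) atTop (𝓝 0) :=
    tendsto_const_nhds.div_atTop (hlog.const_mul_atTop (by norm_num))
  have h5 := ((h2.add_const 1).add (h3.mul_const (1 / 2))).sub h4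
  simp only [zero_add, zero_mul, add_zero, sub_zero] at h5
  refine h5.congr' ?_
  filter_upwards [eventually_ge_atTop 3, h.sm_tendsto.eventually_gt_atTop 0] with n hn hs
  have hn1 : (1 : ℝ) < n := by exact_mod_cast (by omega : 1 < n)
  have hn0 : (0 : ℝ) < n := by linarith
  have hln : 0 < Real.log n := Real.log_pos hn1
  simp only [Function.comp]
  have e : Real.log (FF n) = 2 * Real.log n + Real.log (Real.log n) - Real.log 2 := by
    unfold FF
    rw [Real.log_div (by positivity) (by norm_num), Real.log_mul (by positivity) hln.ne',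
      Real.log_pow]
    push_cast
    ring
  rw [Real.log_div hs.ne' (by unfold FF; positivity), e]
  field_simp
  ring

theorem PLike.hh_sm {Q : ℕ → Prop} (h : PLike Q) :
    Tendsto (fun n : ℕ => hh (sm Q n) / (n * Real.log n)) atTop (𝓝 1) := by
  have h1 := (h.sum_asymp.mul h.log_sm).sqrt
  simp only [mul_one, Real.sqrt_one] at h1
  refine h1.congr' ?_
  filter_upwards [eventually_ge_atTop 3, h.sm_tendsto.eventually_gt_atTop 1] with n hn hs
  have hn1 : (1 : ℝ) < n := by exact_mod_cast (by omega : 1 < n)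
  have hn0 : (0 : ℝ) < n := by linarith
  have hln : 0 < Real.log n := Real.log_pos hn1
  have hls : 0 < Real.log (sm Q n) := Real.log_pos hs
  unfold hh
  rw [eq_div_iff (by positivity), ← Real.sqrt_sq (show 0 ≤ (n : ℝ) * Real.log n by positivity),
    ← Real.sqrt_mul (by unfold FF; positivity)]
  congr 1
  unfold FF
  field_simp

theorem PLike.mm_sm {Q : ℕ → Prop} (h : PLike Q) :
    Tendsto (fun n : ℕ => mm (sm Q n) / (n / 2)) atTop (𝓝 1) := by
  have h1 := (h.sum_asymp.div h.log_sm one_ne_zero).sqrt
  simp only [div_one, Real.sqrt_one] at h1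
  refine h1.congr' ?_
  filter_upwards [eventually_ge_atTop 3, h.sm_tendsto.eventually_gt_atTop 1] with n hn hs
  have hn1 : (1 : ℝ) < n := by exact_mod_cast (by omega : 1 < n)
  have hn0 : (0 : ℝ) < n := by linarith
  have hln : 0 < Real.log n := Real.log_pos hn1
  have hls : 0 < Real.log (sm Q n) := Real.log_pos hs
  unfold mm
  rw [eq_div_iff (by positivity), ← Real.sqrt_sq (show 0 ≤ (n : ℝ) / 2 by positivity),
    ← Real.sqrt_mul (by unfold FF; simp only [Pi.div_apply]; positivity)]
  congr 1
  unfold FF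
  simp only [Pi.div_apply]
  field_simp

/-- the next element against the length at the sum -/
theorem PLike.nth_hh {Q : ℕ → Prop} (h : PLike Q) :
    Tendsto (fun n : ℕ => ((Nat.nth Q n : ℕ) : ℝ) / hh (sm Q n)) atTop (𝓝 1) := by
  have h1 := h.nth3.div h.hh_sm one_ne_zero
  simp only [div_one] at h1
  refine h1.congr' ?_
  filter_upwards [eventually_ge_atTop 3] with n hn
  have hn1 : (1 : ℝ) < n := by exact_mod_cast (by omega : 1 < n)
  have hn0 : (0 : ℝ) < n := by linarith
  have hln : 0 < Real.log n := Real.log_pos hn1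
  simp only [Pi.div_apply]
  rw [div_div_div_cancel_right₀ (by positivity)]

end Pool.Agent.Lib.MP_3ef1ab_nt
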