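import Pool.Agent.Lib.MP_3ef1ab_nt.E.One
import Pool.Agent.Lib.MP_3ef1ab_nt.E.Gap
import Pool.Agent.Lib.MP_3ef1ab_nt.E.Del

/-! MP_3ef1ab_nt, part E, module T2: the uniform tile lemma. -/

set_option autoImplicit false

namespace Pool.Agent.Lib.MP_3ef1ab_nt

open Finset Filter Topology Asymptotics
open scoped Classical

/-- The set of primes. -/
theorem plike_prime
    (hP : Tendsto (fun x : ℝ => (ct Nat.Prime x : ℝ) * Real.log x / x) atTop (𝓝 1)) :
    PLike Nat.Prime := ⟨Nat.not_prime_zero, hP⟩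

theorem t2a {δ h H p L : ℝ} (hδ : 0 < δ) (hδ1 : δ ≤ 1 / 20) (hH : 0 < H)
    (h1 : |h - H| ≤ δ * H) (h2 : |p - H| ≤ δ * H) (h3 : |L - p| ≤ δ * p) :
    |L - h| ≤ 5 * δ * h := by
  rw [abs_le] at *
  have e1 : δ * p ≤ δ * (2 * H) := by
    apply mul_le_mul_of_nonneg_left _ hδ.le
    have : δ * H ≤ 1 / 20 * H := mul_le_mul_of_nonneg_right hδ1 hH.le
    linarith
  have e2 : 4 * δ * H ≤ 5 * δ * h := by
    have h4 : (1 - 1 / 20) * H ≤ h := by
      have : δ * H ≤ 1 / 20 * H := mul_le_mul_of_nonneg_right hδ1 hH.le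
      linarith
    have h5 : δ * ((1 - 1 / 20) * H) ≤ δ * h := mul_le_mul_of_nonneg_left h4 hδ.le
    have h6 : 0 < δ * H := mul_pos hδ hH
    linarith
  constructor <;> linarith

theorem t2b {δ ε m M t c W C : ℝ} (hδ : 0 < δ) (hδ1 : δ ≤ 1 / 20) (ht : 0 < t) (hC : 0 < C)
    (hε : (10 + 20 * C) * δ ≤ ε)
    (h1 : |m - M| ≤ δ * M) (h2 : |M - t| ≤ δ * t) (h3 : |W - m| ≤ δ * m)
    (h4 : |c - W| ≤ C * (5 * δ) * m) : |c - t| ≤ ε * t := by
  rw [abs_le] at *
  have e1 : δ * t ≤ 1 / 20 * t := mul_le_mul_of_nonneg_right hδ1 ht.le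
  have e2 : M ≤ 2 * t := by linarith
  have e3 : δ * M ≤ δ * (2 * t) := mul_le_mul_of_nonneg_left e2 hδ.le
  have e4 : m ≤ 3 * t := by linarith
  have e5 : δ * m ≤ δ * (3 * t) := mul_le_mul_of_nonneg_left e4 hδ.le
  have e6 : C * (5 * δ) * m ≤ C * (5 * δ) * (3 * t) :=
    mul_le_mul_of_nonneg_left e4 (by positivity)
  have e7 := mul_le_mul_of_nonneg_right hε ht.le
  have e8 : 0 < C * δ * t := by positivity
  constructor <;> nlinarith

theorem tile2 (hW : WinStmt)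
    (hP : Tendsto (fun x : ℝ => (ct Nat.Prime x : ℝ) * Real.log x / x) atTop (𝓝 1))
    (hS : ShortPNT) (ε : ℝ) (hε : 0 < ε) : ∃ δ : ℝ, 0 < δ ∧ ∀ᶠ n : ℕ in atTop, ∀ a b : ℕ,
      |(a : ℝ) - sm Nat.Prime n| ≤ δ * sm Nat.Prime n →
      |((b : ℝ) - a) - Nat.nth Nat.Prime n| ≤ δ * Nat.nth Nat.Prime n →
      |2 * (((Ioo a b).filter Nat.Prime).card : ℝ) / n - 1| ≤ ε := by
  obtain ⟨C, hC, hW⟩ := hW
  have hQ := plike_prime hP
  -- parameters
  set δ := min (ε / (10 + 20 * C)) (1 / 20) with hδdef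
  have hδ : 0 < δ := lt_min (by positivity) (by norm_num)
  have hδ1 : δ ≤ 1 / 20 := min_le_right _ _
  have hδε : (10 + 20 * C) * δ ≤ ε := by
    have : δ ≤ ε / (10 + 20 * C) := min_le_left _ _
    rw [le_div_iff₀ (by positivity)] at this
    linarith
  obtain ⟨η, hη, hreg⟩ := reg δ hδ
  refine ⟨min (min η δ) (1 / 2), by positivity, ?_⟩
  have a1 := Metric.tendsto_nhds.1 hQ.nth_hh δ hδ
  have a2 := Metric.tendsto_nhds.1 hQ.mm_sm δ hδ
  have a3 := hQ.sm_tendsto.eventually_gt_atTop 2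
  have a4 := hQ.sm_tendsto.eventually hreg
  -- eventual property in the start x
  have a5 : ∀ᶠ x : ℝ in atTop, |WW x - mm x| ≤ δ * mm x := by
    have h1 : Tendsto (fun x : ℝ => WW x / mm x) atTop (𝓝 1) := hS
    filter_upwards [Metric.tendsto_nhds.1 h1 δ hδ, eventually_gt_atTop (1 : ℝ)] with x hx hx1
    have hm := mm_pos x hx1
    rw [Real.dist_eq] at hx
    have e : WW x - mm x = (WW x / mm x - 1) * mm x := by field_simp
    rw [e, abs_mul, abs_of_pos hm]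
    exact mul_le_mul_of_nonneg_right hx.le hm.le
  obtain ⟨x0, hx0⟩ := eventually_atTop.1 (a5.and (hW (5 * δ) (by positivity)))
  have a6 : ∀ᶠ n : ℕ in atTop, 2 * max x0 2 ≤ ((sm Nat.Prime n : ℕ) : ℝ) :=
    hQ.sm_tendsto.eventually_ge_atTop _
  filter_upwards [a1, a2, a3, a4, a6, eventually_ge_atTop 1] with n a1 a2 a3 a4 a6 hn
  intro a b ha hb
  set S := ((sm Nat.Prime n : ℕ) : ℝ) with hSdef
  set p := ((Nat.nth Nat.Prime n : ℕ) : ℝ) with hpdef
  have hn0 : (0 : ℝ) < n := by exact_mod_cast hn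
  have hhS : 0 < hh S := hh_pos _ (by linarith)
  have hp0 : 0 < p := by
    rw [hpdef]
    exact_mod_cast lt_of_lt_of_le (Nat.succ_pos n) (hQ.nth_ge n)
  have hS0 : 0 < S := by linarith
  have haη : |(a : ℝ) - S| ≤ η * S := ha.trans (mul_le_mul_of_nonneg_right
    ((min_le_left _ _).trans (min_le_left _ _)) hS0.le)
  have hahalf : |(a : ℝ) - S| ≤ 1 / 2 * S := ha.trans (mul_le_mul_of_nonneg_right
    (min_le_right _ _) hS0.le)
  have hbδ : |((b : ℝ) - a) - p| ≤ δ * p := hb.trans (mul_le_mul_of_nonneg_right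
    ((min_le_left _ _).trans (min_le_right _ _)) hp0.le)
  have hax : max x0 2 ≤ (a : ℝ) := by
    rw [abs_le] at hahalf
    linarith
  have hax0 : x0 ≤ (a : ℝ) := (le_max_left _ _).trans hax
  have hax2 : (2 : ℝ) ≤ (a : ℝ) := (le_max_right _ _).trans hax
  obtain ⟨r1, r2⟩ := a4 a haη
  obtain ⟨w1, w2⟩ := hx0 a hax0
  rw [Real.dist_eq] at a1 a2
  have hpH : |p - hh S| ≤ δ * hh S := by
    have e : p - hh S = (p / hh S - 1) * hh S := by field_simp
    rw [e, abs_mul, abs_of_pos hhS]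
    exact mul_le_mul_of_nonneg_right a1.le hhS.le
  have hlen := t2a hδ hδ1 hhS r1 hpH hbδ
  have hab : a < b := by
    have h1 : (a : ℝ) < b := by
      rw [abs_le] at hbδ
      have : δ * p ≤ 1 / 20 * p := mul_le_mul_of_nonneg_right hδ1 hp0.le
      linarith
    exact_mod_cast h1
  have w3 := w2 a b hab (by
    rw [sub_self, abs_zero]
    have := hh_pos (a : ℝ) (by linarith)
    positivity) (by
    rw [← sub_sub]
    exact hlen)
  have hMt : |mm S - (n : ℝ) / 2| ≤ δ * ((n : ℝ) / 2) := by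
    have e : mm S - (n : ℝ) / 2 = (mm S / ((n : ℝ) / 2) - 1) * ((n : ℝ) / 2) := by field_simp
    rw [e, abs_mul, abs_of_pos (show 0 < (n : ℝ) / 2 by positivity)]
    exact mul_le_mul_of_nonneg_right a2.le (by positivity)
  have hfin := t2b hδ hδ1 (show 0 < (n : ℝ) / 2 by positivity) hC hδε r2 hMt w1 w3
  have e : 2 * (((Ioo a b).filter Nat.Prime).card : ℝ) / n - 1 =
      ((((Ioo a b).filter Nat.Prime).card : ℝ) - (n : ℝ) / 2) / ((n : ℝ) / 2) := by
    field_simp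
  rw [e, abs_div, abs_of_pos (show 0 < (n : ℝ) / 2 by positivity), div_le_iff₀ (by positivity)]
  exact hfin

end Pool.Agent.Lib.MP_3ef1ab_nt
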