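import Pool.Agent.Lib.MP_3ef1ab_nt.E.Scale
import Pool.Agent.Lib.MP_3ef1ab_nt.E.Bt

/-! MP_3ef1ab_nt, part E, module Win: windows of length `√(x log x)`. -/

set_option autoImplicit false

namespace Pool.Agent.Lib.MP_3ef1ab_nt

open Finset Filter Topology Asymptotics
open scoped Classical

/-- number of primes ≤ n, as a real number -/
noncomputable def pp (n : ℕ) : ℝ := (ct Nat.Prime (n : ℝ) : ℝ)

theorem ct_sub (Q : ℕ → Prop) (u v : ℕ) (huv : u ≤ v) :
    (ct Q (v : ℝ) : ℝ) - ct Q (u : ℝ) = ((Ioc u v).filter Q).card := by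
  unfold ct
  rw [Nat.floor_natCast, Nat.floor_natCast]
  have h1 : Icc 1 v = Icc 1 u ∪ Ioc u v := by
    ext m; simp only [mem_Icc, mem_union, mem_Ioc]; omega
  have h2 : Disjoint (Icc 1 u) (Ioc u v) := by
    rw [Finset.disjoint_left]
    intro m hm1 hm2
    simp only [mem_Icc, mem_Ioc] at hm1 hm2
    omega
  rw [h1, filter_union, card_union_of_disjoint (disjoint_filter_filter h2)]
  push_cast
  ring

theorem card_cl (s : Finset ℕ) :
    (@Finset.filter ℕ Nat.Prime (fun a => Classical.propDecidable (Nat.Prime a)) s).card =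
      (s.filter Nat.Prime).card := by
  congr

theorem ct_mono (Q : ℕ → Prop) {x y : ℝ} (h : x ≤ y) : ct Q x ≤ ct Q y := by
  unfold ct
  apply card_le_card
  apply filter_subset_filter
  exact Icc_subset_Icc_right (Nat.floor_le_floor h)

theorem hh_tendsto : Tendsto hh atTop atTop := by
  unfold hh
  apply Tendsto.comp Real.tendsto_sqrt_atTop
  exact tendsto_id.atTop_mul_atTop₀ Real.tendsto_log_atTop

theorem mm_tendsto : Tendsto mm atTop atTop := by
  unfold mm
  apply Tendsto.comp Real.tendsto_sqrt_atTop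
  have h1 : Tendsto (fun x : ℝ => Real.log x / x) atTop (𝓝[>] 0) := by
    rw [tendsto_nhdsWithin_iff]
    refine ⟨Real.isLittleO_log_id_atTop.tendsto_div_nhds_zero, ?_⟩
    filter_upwards [eventually_gt_atTop (1 : ℝ)] with x hx
    have := Real.log_pos hx
    exact div_pos this (by linarith)
  have h2 := h1.inv_tendsto_nhdsGT_zero
  refine h2.congr fun x => ?_
  simp only [Pi.inv_apply, inv_div]

/-- `hh x = mm x * log x` -/
theorem hh_eq (x : ℝ) (hx : 1 < x) : hh x = mm x * Real.log x := by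
  have hL : 0 < Real.log x := Real.log_pos hx
  have h0 : 0 < x := by linarith
  unfold hh mm
  have h1 : √(x / Real.log x) * Real.log x = √(x / Real.log x) * √(Real.log x ^ 2) := by
    rw [Real.sqrt_sq hL.le]
  rw [h1, ← Real.sqrt_mul (by positivity)]
  congr 1
  field_simp

theorem hh_pos (x : ℝ) (hx : 1 < x) : 0 < hh x := by
  have hL : 0 < Real.log x := Real.log_pos hx
  unfold hh
  exact Real.sqrt_pos.2 (mul_pos (by linarith) hL)

theorem mm_pos (x : ℝ) (hx : 1 < x) : 0 < mm x := by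
  have hL : 0 < Real.log x := Real.log_pos hx
  unfold mm
  exact Real.sqrt_pos.2 (div_pos (by linarith) hL)

/-- `hh x / x → 0` -/
theorem hh_div : Tendsto (fun x : ℝ => hh x / x) atTop (𝓝 0) := by
  have h1 := (Real.isLittleO_log_id_atTop.tendsto_div_nhds_zero).sqrt
  rw [Real.sqrt_zero] at h1
  refine h1.congr' ?_
  filter_upwards [eventually_gt_atTop (1 : ℝ)] with x hx
  have hL : 0 < Real.log x := Real.log_pos hx
  have h0 : 0 < x := by linarith
  unfold hh
  have h1 : √(Real.log x / id x) * x = √(Real.log x / id x) * √(x ^ 2) := by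
    rw [Real.sqrt_sq h0.le]
  rw [eq_div_iff h0.ne', h1, ← Real.sqrt_mul (by simp only [id]; positivity)]
  congr 1
  simp only [id]
  field_simp

/-- the number of primes in short windows at the scale `hh x` -/
def BtWStmt : Prop := ∃ C : ℝ, 0 < C ∧ ∀ δ : ℝ, 0 < δ → ∀ᶠ x : ℝ in atTop, ∀ u v : ℕ,
  |(u : ℝ) - v| ≤ δ * hh x → |pp u - pp v| ≤ C * δ * mm x

theorem tBtW (h : BtStmt) : BtWStmt := by
  obtain ⟨C, hC, Y0, hY0, h⟩ := h
  refine ⟨8 * C, by positivity, ?_⟩
  intro δ hδ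
  have e1 : ∀ᶠ x : ℝ in atTop, (Y0 : ℝ) ≤ δ * hh x :=
    (hh_tendsto.const_mul_atTop hδ).eventually_ge_atTop _
  have e2 : ∀ᶠ x : ℝ in atTop, 1 ≤ δ * hh x :=
    (hh_tendsto.const_mul_atTop hδ).eventually_ge_atTop _
  -- δ hh x ≥ x^(1/4)
  have e3 : ∀ᶠ x : ℝ in atTop, x ^ ((1 : ℝ) / 4) ≤ δ * hh x := by
    have h1 : ∀ᶠ x : ℝ in atTop, 1 / δ ≤ x ^ ((1 : ℝ) / 4) :=
      (tendsto_rpow_atTop (by norm_num)).eventually_ge_atTop _
    have h2 : ∀ᶠ x : ℝ in atTop, 1 ≤ Real.log x := Real.tendsto_log_atTop.eventually_ge_atTop 1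
    filter_upwards [h1, h2, eventually_gt_atTop (1 : ℝ)] with x hx1 hx2 hx3
    have h0 : 0 < x := by linarith
    have h3 : x ^ ((1 : ℝ) / 2) ≤ hh x := by
      unfold hh
      rw [← Real.sqrt_eq_rpow]
      apply Real.sqrt_le_sqrt
      nlinarith
    have h4 : x ^ ((1 : ℝ) / 2) = x ^ ((1 : ℝ) / 4) * x ^ ((1 : ℝ) / 4) := by
      rw [← Real.rpow_add h0]; norm_num
    have h5 : 0 < x ^ ((1 : ℝ) / 4) := by positivity
    calc x ^ ((1 : ℝ) / 4) = δ * ((1 / δ) * x ^ ((1 : ℝ) / 4)) := by field_simp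
      _ ≤ δ * (x ^ ((1 : ℝ) / 4) * x ^ ((1 : ℝ) / 4)) := by gcongr
      _ ≤ δ * hh x := by rw [← h4]; gcongr
  filter_upwards [e1, e2, e3, eventually_gt_atTop (1 : ℝ)] with x hx1 hx2 hx3 hx4
  have hL : 0 < Real.log x := Real.log_pos hx4
  have h0 : 0 < x := by linarith
  have key : ∀ u v : ℕ, u ≤ v → (v : ℝ) - u ≤ δ * hh x → pp v - pp u ≤ 8 * C * δ * mm x := by
    intro u v huv hle
    set Y := ⌈δ * hh x⌉₊ with hY
    have hYge : δ * hh x ≤ Y := Nat.le_ceil _
    have hYle : (Y : ℝ) ≤ 2 * (δ * hh x) := by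
      have := Nat.ceil_lt_add_one (show 0 ≤ δ * hh x by linarith)
      linarith
    have hYY : Y0 ≤ Y := by exact_mod_cast hx1.trans hYge
    have h1 := h u Y hYY
    unfold pp
    rw [ct_sub _ u v huv, card_cl]
    have h2 : (((Ioc u v).filter Nat.Prime).card : ℝ) ≤
        (((Ioc u (u + Y)).filter Nat.Prime).card : ℝ) := by
      have : v ≤ u + Y := by
        have : (v : ℝ) ≤ u + Y := by linarith
        exact_mod_cast this
      exact_mod_cast card_le_card (filter_subset_filter _ (Ioc_subset_Ioc_right this))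
    have hY1 : x ^ ((1 : ℝ) / 4) ≤ Y := hx3.trans hYge
    have hYpos : (0 : ℝ) < Y := lt_of_lt_of_le (by positivity) hY1
    have hlogY : Real.log x / 4 ≤ Real.log Y := by
      have := Real.log_le_log (by positivity) hY1
      rw [Real.log_rpow h0] at this
      linarith
    have hlogY0 : 0 < Real.log Y := by linarith [div_pos hL (show (0 : ℝ) < 4 by norm_num)]
    have h3 : (Y : ℝ) / Real.log Y ≤ 8 * δ * mm x := by
      rw [div_le_iff₀ hlogY0]
      calc (Y : ℝ) ≤ 2 * (δ * hh x) := hYle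
        _ = 8 * δ * mm x * (Real.log x / 4) := by rw [hh_eq x hx4]; ring
        _ ≤ 8 * δ * mm x * Real.log Y := by
            have := mm_pos x hx4
            gcongr
    calc (((Ioc u v).filter Nat.Prime).card : ℝ) ≤ _ := h2
      _ ≤ C * ((Y : ℝ) / Real.log Y) := h1
      _ ≤ C * (8 * δ * mm x) := by gcongr
      _ = 8 * C * δ * mm x := by ring
  intro u v huv
  rw [abs_le] at huv
  rcases le_total u v with h1 | h1
  · have h2 := key u v h1 (by linarith)
    have h3 : 0 ≤ pp v - pp u := by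
      unfold pp
      have := ct_mono Nat.Prime (show (u : ℝ) ≤ v by exact_mod_cast h1)
      have : (ct Nat.Prime (u : ℝ) : ℝ) ≤ ct Nat.Prime (v : ℝ) := by exact_mod_cast this
      linarith
    rw [abs_sub_comm, abs_of_nonneg h3]
    exact h2
  · have h2 := key v u h1 (by linarith)
    have h3 : 0 ≤ pp u - pp v := by
      unfold pp
      have := ct_mono Nat.Prime (show (v : ℝ) ≤ u by exact_mod_cast h1)
      have : (ct Nat.Prime (v : ℝ) : ℝ) ≤ ct Nat.Prime (u : ℝ) := by exact_mod_cast this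
      linarith
    rw [abs_of_nonneg h3]
    exact h2

/-- the number of primes in the window at x -/
noncomputable def WW (x : ℝ) : ℝ := (ct Nat.Prime (x + hh x) : ℝ) - ct Nat.Prime x

/-- comparison of the open interval (a, b) with the window at x -/
def WinStmt : Prop := ∃ C : ℝ, 0 < C ∧ ∀ δ : ℝ, 0 < δ → ∀ᶠ x : ℝ in atTop, ∀ a b : ℕ, a < b →
  |(a : ℝ) - x| ≤ δ * hh x → |(b : ℝ) - (x + hh x)| ≤ δ * hh x →
  |(((Ioo a b).filter Nat.Prime).card : ℝ) - WW x| ≤ C * δ * mm x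

theorem tWin (h : BtWStmt) : WinStmt := by
  obtain ⟨C, hC, h⟩ := h
  refine ⟨4 * C, by positivity, ?_⟩
  intro δ hδ
  have e2 : ∀ᶠ x : ℝ in atTop, 2 ≤ δ * hh x :=
    (hh_tendsto.const_mul_atTop hδ).eventually_ge_atTop _
  filter_upwards [e2, h (2 * δ) (by positivity), eventually_gt_atTop (1 : ℝ)] with x hx1 hx2 hx3
  intro a b hab ha hb
  have h0 : 0 < x := by linarith
  have hp := hh_pos x hx3
  have h1 : (((Ioo a b).filter Nat.Prime).card : ℝ) = pp (b - 1) - pp a := by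
    have : Ioo a b = Ioc a (b - 1) := by
      ext m; simp only [mem_Ioo, mem_Ioc]; omega
    rw [this]
    unfold pp
    rw [ct_sub _ a (b - 1) (by omega), card_cl]
  have h2 : WW x = pp ⌊x + hh x⌋₊ - pp ⌊x⌋₊ := by
    unfold WW pp
    rw [← ct_floor, ← ct_floor]
  rw [h1, h2]
  rw [abs_le] at ha hb
  have f1 := Nat.floor_le h0.le
  have f2 := Nat.lt_floor_add_one x
  have f3 := Nat.floor_le (show 0 ≤ x + hh x by linarith)
  have f4 := Nat.lt_floor_add_one (x + hh x)
  have hb1 : ((b - 1 : ℕ) : ℝ) = b - 1 := by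
    rw [Nat.cast_sub (by omega)]; norm_num
  have g1 := hx2 a ⌊x⌋₊ (by rw [abs_le]; constructor <;> linarith)
  have g2 := hx2 (b - 1) ⌊x + hh x⌋₊ (by rw [hb1, abs_le]; constructor <;> linarith)
  have : pp (b - 1) - pp a - (pp ⌊x + hh x⌋₊ - pp ⌊x⌋₊) =
      (pp (b - 1) - pp ⌊x + hh x⌋₊) - (pp a - pp ⌊x⌋₊) := by ring
  rw [this]
  calc |(pp (b - 1) - pp ⌊x + hh x⌋₊) - (pp a - pp ⌊x⌋₊)|
      ≤ |pp (b - 1) - pp ⌊x + hh x⌋₊| + |pp a - pp ⌊x⌋₊| := abs_sub _ _
    _ ≤ C * (2 * δ) * mm x + C * (2 * δ) * mm x := add_le_add g2 g1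
    _ = 4 * C * δ * mm x := by ring

end Pool.Agent.Lib.MP_3ef1ab_nt
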